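import Pool.Agent.U162.GE.Dn

/-!
The two-scale theorem on the Fourier side, for all data near the two-scale data
-/

open MeasureTheory Set Filter Topology
open scoped ENNReal NNReal

namespace Pool.Agent.U162.GE

open Pool.Agent.H356R3.NS Pool.Agent.U162.TS

lemma mF_max (c : ℝ) (m : K → C3) (k : K) (t : ℝ) : mF c m k t = mF c m k (max t 0) := by
  unfold mF; simp

lemma mF_ini (c : ℝ) (m : K → C3) (k : K) : mF c m k 0 = m k := by
  unfold mF; simp

lemma mF_sym (c : ℝ) {m : K → C3} (hm : Sym m) : SymF (mF c m) := by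
  intro t k i
  show mF c m (-k) t i = star (mF c m k t i)
  unfold mF
  rw [Pi.smul_apply, Pi.smul_apply, hm k i, H356R3.NS.sq_neg, star_smul, star_trivial (Real.exp _)]

lemma mF_le {c : ℝ} (hc : 0 < c) (m : K → C3) (k : K) (t : ℝ) : ‖mF c m k t‖ ≤ ‖m k‖ := by
  unfold mF
  rw [norm_smul, Real.norm_of_nonneg (Real.exp_pos _).le]
  refine mul_le_of_le_one_left (norm_nonneg _) ?_
  rw [Real.exp_le_one_iff]
  have := mul_nonneg (mul_nonneg hc.le (sq_nonneg' k)) (le_max_right t 0)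
  linarith

lemma mF_fin {m : K → C3} {S : Finset K} (hS : ∀ k ∉ S, m k = 0) (c : ℝ) : FinS (mF c m) :=
  ⟨S, fun k hk t => by unfold mF; rw [hS k hk, smul_zero]⟩

lemma bd_fin {m : K → C3} {S : Finset K} (hS : ∀ k ∉ S, m k = 0) : ∃ B : ℝ, ∀ k, ‖m k‖ ≤ B := by
  refine ⟨∑ k ∈ S, ‖m k‖, fun k => ?_⟩
  by_cases hk : k ∈ S
  · exact Finset.single_le_sum (f := fun k => ‖m k‖) (fun _ _ => norm_nonneg _) hk
  · rw [hS k hk, norm_zero]; exact Finset.sum_nonneg fun _ _ => norm_nonneg _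

/-- adding a small heat flow to an approximate solution -/
lemma apx_heat {c : ℝ} (hc : 0 < c) {VF V : K → C3} {U G : Fam} (h : Apx c VF U G) (hV : ∃ S : Finset K, ∀ k ∉ S, V k = 0)
    (hs : Sym V) (h0 : V 0 = 0) {D e θ : ℝ} (hD : 0 ≤ D) (he : 0 ≤ e) (hθ : 0 ≤ θ)
    (h1 : LN (fun t => NW (Wa 0) (at' U t)) ≤ ENNReal.ofReal D)
    (h2 : ∫⁻ t in Ioi 0, NW (Wm 0) (at' (Bt U - G) t) ≤ ENNReal.ofReal e)
    (h3 : HN c (V - VF) ≤ ENNReal.ofReal θ) :
    Apx c V (U + mF c (V - VF)) G ∧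
      LN (fun t => NW (Wa 0) (at' (U + mF c (V - VF)) t)) ≤ ENNReal.ofReal (D + θ) ∧
      ∫⁻ t in Ioi 0, NW (Wm 0) (at' (Bt (U + mF c (V - VF)) - G) t) ≤ ENNReal.ofReal (e + C0 * (θ * (2 * D + θ))) := by
  have hC := C0_pos
  have hVF : ∀ k, VF k = U k 0 := fun k => (h.ini k).symm
  obtain ⟨S1, hS1⟩ := hV
  obtain ⟨S2, hS2⟩ := h.fu
  have hVFS : ∀ k ∉ S2, VF k = 0 := fun k hk => by rw [hVF]; exact hS2 k hk 0
  have hsVF : Sym VF := by
    intro k i
    rw [hVF, hVF]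
    exact h.su 0 k i
  have hVF0 : VF 0 = 0 := by rw [hVF]; exact h.zu 0
  set m := V - VF with hm
  have hmS : ∀ k ∉ S1 ∪ S2, m k = 0 := by
    intro k hk
    rw [Finset.mem_union, not_or] at hk
    rw [hm, Pi.sub_apply, hS1 k hk.1, hVFS k hk.2, sub_zero]
  have hms : Sym m := by
    intro k i
    rw [hm, Pi.sub_apply, Pi.sub_apply, Pi.sub_apply, Pi.sub_apply, hs k i, hsVF k i, star_sub]
  have hm0 : m 0 = 0 := by rw [hm, Pi.sub_apply, h0, hVF0, sub_zero]
  have hod : Od c (U + mF c m) (G + 0) := h.od.add (m_od hc.le hmS)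
  rw [add_zero] at hod
  obtain ⟨B2, hB2⟩ := bd_fin hmS
  refine ⟨hod.apx (fun t => ?_) h.zg ?_ h.sg fun k => ?_, ?_, ?_⟩
  · rw [Pi.add_apply, Pi.add_apply, h.zu t]
    unfold mF
    rw [hm0, smul_zero, add_zero]
  · intro t
    exact (h.su t).add (mF_sym c hms t)
  · rw [Pi.add_apply, Pi.add_apply, mF_ini, ← hVF, hm, Pi.sub_apply]; abel
  · rw [ENNReal.ofReal_add hD hθ]
    exact (LN_mono fun t _ => NW_add_le _ (at' U t) (at' (mF c m) t)).trans
      ((LN_add_le (NW_meas _ h.cf) (NW_meas _ (mF_cf c m))).trans (add_le_add h1 h3))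
  · obtain ⟨B, hB0, hB⟩ := bound_fin h.fu h.bd
    obtain ⟨B1, hB1⟩ := h.bd
    have hz0 : Bt (0 : Fam) = 0 := by
      funext k t
      show Bf (at' 0 t) (at' 0 t) k = 0
      have : at' (0 : Fam) t = 0 := rfl
      rw [this, Bf_zero_left]; rfl
    have hcz : CF (0 : Fam) := fun k => continuous_const
    have hdz : Dom (0 : Fam) := ⟨fun _ => 0, summable_zero, fun k t => by simp⟩
    have hN0 : ∀ t, NW (Wa 0) (at' (0 : Fam) t) = 0 := fun t => by
      rw [NW_Wa0]; simp [at']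
    have hg := glue (u := U) (z := 0) (r := mF c m) (f := G) (g := 0) h.cf hcz (mF_cf c m) h.cg hcz
      (h.fu.dom hB1) hdz ((mF_fin hmS c).dom fun k t => (mF_le hc m k t).trans (hB2 k))
      (D1 := ENNReal.ofReal D) (D2 := 0) (D3 := ENNReal.ofReal θ) (B := ENNReal.ofReal B) (E := 0)
      (ε1 := ENNReal.ofReal e) (ε2 := 0) h1 (by simp [hN0, LN]) h3 hB (by simp [hN0]) h2
      (by rw [hz0]; simp [at', NW])
    simp only [zero_add, add_zero, mul_zero] at hg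
    refine hg.trans (le_of_eq ?_)
    rw [show (2 : ℝ≥0∞) = ENNReal.ofReal 2 by norm_num, ← ENNReal.ofReal_mul (by norm_num),
      ← ENNReal.ofReal_add (by positivity) hθ, ← ENNReal.ofReal_mul hθ, ← ENNReal.ofReal_mul hC.le,
      ← ENNReal.ofReal_add he (by positivity)]

end Pool.Agent.U162.GE
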