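import Pool.Agent.U162.GE.Cls

/-!
Fourier coefficients of smooth functions of two periodic variables
-/

open MeasureTheory Set Filter Topology
open scoped ENNReal NNReal ContDiff

namespace Pool.Agent.U162.GE

open Pool.Agent.H356R3.NS Pool.Agent.U162.TS Pool.Agent.U162.TS.EL Pool.Agent.U162.PL

/-- smooth functions of two variables, periodic in both -/
structure S2 (G : R3 → R3 → ℝ) : Prop where
  smooth : ContDiff ℝ ∞ fun z : R3 × R3 => G z.1 z.2
  px : ∀ x y j, G (x + Pi.single j 1) y = G x y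
  py : ∀ x y j, G x (y + Pi.single j 1) = G x y

/-- the Fourier coefficients in both variables -/
noncomputable def bb (G : R3 → R3 → ℝ) (l k : K) : ℂ := H459R3.NS.fc (fun x => H459R3.NS.fr (G x) k) l

variable {G : R3 → R3 → ℝ}

lemma S2.swap (h : S2 G) : S2 fun y x => G x y where
  smooth := h.smooth.comp (contDiff_snd.prodMk contDiff_fst)
  px := fun x y j => h.py y x j
  py := fun x y j => h.px y x j

lemma S2.fy (h : S2 G) (x : R3) : H459R3.NS.SP (G x) where
  smooth := h.smooth.comp (contDiff_const.prodMk contDiff_id)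
  per := fun i y => h.py x y i

lemma S2.cont (h : S2 G) : Continuous fun z : R3 × R3 => G z.1 z.2 := h.smooth.continuous

/-- the coefficients in the second variable are continuous -/
lemma S2.phc (h : S2 G) (k : K) : Continuous fun x => H459R3.NS.fr (G x) k := by
  unfold H459R3.NS.fr H459R3.NS.fc
  have hf : Continuous (Function.uncurry fun (x : R3) (y : R3) => H459R3.NS.ee (-k) y * ((G x y : ℝ) : ℂ)) := by
    have h1 : Continuous fun z : R3 × R3 => H459R3.NS.ee (-k) z.2 := (H459R3.NS.ee_continuous _).comp continuous_snd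
    exact h1.mul (Complex.continuous_ofReal.comp h.cont)
  exact continuous_parametric_integral_of_continuous hf (isCompact_Icc (a := (0 : R3)) (b := 1))

lemma S2.php (h : S2 G) (k : K) : H459R3.NS.Per fun x => H459R3.NS.fr (G x) k := by
  intro i x
  have : G (x + Pi.single i 1) = G x := funext fun y => h.px x y i
  simp only [this]

lemma S2.bd (h : S2 G) : ∃ M : ℝ, 0 ≤ M ∧ ∀ x ∈ H459R3.NS.cube, ∀ y ∈ H459R3.NS.cube, |G x y| ≤ M := by
  obtain ⟨M, hM⟩ := (isCompact_Icc (a := (0 : R3)) (b := 1)).prod (isCompact_Icc (a := (0 : R3)) (b := 1))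
    |>.exists_bound_of_continuousOn h.cont.continuousOn
  refine ⟨max M 0, le_max_right _ _, fun x hx y hy => ?_⟩
  exact (hM (x, y) ⟨hx, hy⟩).trans (le_max_left _ _)

lemma norm_int_cube {f : R3 → ℂ} {M : ℝ} (h : ∀ x ∈ H459R3.NS.cube, ‖f x‖ ≤ M) : ‖∫ x in H459R3.NS.cube, f x‖ ≤ M := by
  have h1 := norm_setIntegral_le_of_norm_le_const (μ := volume) (s := H459R3.NS.cube) (f := f) (C := M)
    (by rw [H459R3.NS.volume_cube]; exact ENNReal.one_lt_top) h
  refine h1.trans (le_of_eq ?_)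
  unfold Measure.real
  rw [H459R3.NS.volume_cube]; simp

lemma S2.bb_le (h : S2 G) : ∃ M : ℝ, 0 ≤ M ∧ ∀ l k, ‖bb G l k‖ ≤ M := by
  obtain ⟨M, hM0, hM⟩ := h.bd
  refine ⟨M, hM0, fun l k => ?_⟩
  unfold bb
  refine norm_int_cube fun x hx => ?_
  rw [norm_mul, H459R3.NS.norm_ee, one_mul]
  refine norm_int_cube fun y hy => ?_
  rw [norm_mul, H459R3.NS.norm_ee, one_mul, Complex.norm_real]
  exact hM x hx y hy

lemma S2.bb_swap (h : S2 G) (l k : K) : bb G l k = bb (fun y x => G x y) k l := by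
  unfold bb H459R3.NS.fr H459R3.NS.fc
  have e1 : ∀ x, H459R3.NS.ee (-l) x * ∫ y in H459R3.NS.cube, H459R3.NS.ee (-k) y * ((G x y : ℝ) : ℂ)
      = ∫ y in H459R3.NS.cube, H459R3.NS.ee (-l) x * (H459R3.NS.ee (-k) y * ((G x y : ℝ) : ℂ)) := fun x =>
    (integral_const_mul _ _).symm
  have e2 : ∀ y, H459R3.NS.ee (-k) y * ∫ x in H459R3.NS.cube, H459R3.NS.ee (-l) x * ((G x y : ℝ) : ℂ)
      = ∫ x in H459R3.NS.cube, H459R3.NS.ee (-l) x * (H459R3.NS.ee (-k) y * ((G x y : ℝ) : ℂ)) := fun y => by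
    rw [← integral_const_mul]
    refine integral_congr_ae (Filter.Eventually.of_forall fun x => ?_)
    simp only
    ring
  simp only [e1, e2]
  rw [integral_integral_swap]
  have := H459R3.NS.cube_finite
  obtain ⟨M, hM0, hM⟩ := h.bd
  have hf : Continuous (Function.uncurry fun (x : R3) (y : R3) =>
      H459R3.NS.ee (-l) x * (H459R3.NS.ee (-k) y * ((G x y : ℝ) : ℂ))) := by
    have h1 : Continuous fun z : R3 × R3 => H459R3.NS.ee (-k) z.2 := (H459R3.NS.ee_continuous _).comp continuous_snd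
    have h2 : Continuous fun z : R3 × R3 => H459R3.NS.ee (-l) z.1 := (H459R3.NS.ee_continuous _).comp continuous_fst
    exact h2.mul (h1.mul (Complex.continuous_ofReal.comp h.cont))
  refine Integrable.of_bound hf.aestronglyMeasurable M ?_
  rw [Measure.prod_restrict]
  refine (ae_restrict_iff' (measurableSet_Icc.prod measurableSet_Icc)).2 (Filter.Eventually.of_forall fun z hz => ?_)
  show ‖H459R3.NS.ee (-l) z.1 * (H459R3.NS.ee (-k) z.2 * ((G z.1 z.2 : ℝ) : ℂ))‖ ≤ M
  rw [norm_mul, norm_mul, H459R3.NS.norm_ee, H459R3.NS.norm_ee, one_mul, one_mul, Complex.norm_real]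
  exact hM _ hz.1 _ hz.2

lemma S2.dy (h : S2 G) (j : Fin 3) : S2 fun x y => H459R3.NS.pd j (G x) y where
  smooth := by
    have e : (fun z : R3 × R3 => H459R3.NS.pd j (G z.1) z.2)
        = fun z => fderiv ℝ (fun z : R3 × R3 => G z.1 z.2) z ((0 : R3), (Pi.single j 1 : R3)) := by
      funext z
      unfold H459R3.NS.pd
      have h1 : HasFDerivAt (fun z : R3 × R3 => G z.1 z.2) (fderiv ℝ (fun z : R3 × R3 => G z.1 z.2) (z.1, z.2)) (z.1, z.2) :=
        (h.smooth.differentiable (by simp) (z.1, z.2)).hasFDerivAt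
      have h2 := h1.comp z.2 (hasFDerivAt_prodMk_right (𝕜 := ℝ) z.1 z.2)
      have h3 : (fun z : R3 × R3 => G z.1 z.2) ∘ (fun y => (z.1, y)) = G z.1 := rfl
      rw [h3] at h2
      rw [h2.fderiv]
      rfl
    rw [e]
    exact (h.smooth.fderiv_right (m := ∞) (by norm_cast)).clm_apply contDiff_const
  px := fun x y i => by
    have : G (x + Pi.single i 1) = G x := funext fun y => h.px x y i
    rw [this]
  py := fun x y i => (h.fy x).per.pd j i y

lemma S2.bb_dy (h : S2 G) (j : Fin 3) (l k : K) :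
    bb (fun x y => H459R3.NS.pd j (G x) y) l k = 2 * Real.pi * Complex.I * (k j : ℂ) * bb G l k := by
  unfold bb
  have e : ∀ x, H459R3.NS.fr (fun y => H459R3.NS.pd j (G x) y) k = 2 * Real.pi * Complex.I * (k j : ℂ) * H459R3.NS.fr (G x) k := by
    intro x
    have := congrFun (H459R3.NS.fr_pd (h.fy x) j) k
    rw [show (fun y => H459R3.NS.pd j (G x) y) = H459R3.NS.pd j (G x) from rfl, this]
    rfl
  simp only [e]
  unfold H459R3.NS.fc
  rw [← integral_const_mul]
  refine integral_congr_ae (Filter.Eventually.of_forall fun x => ?_)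
  simp only
  ring

lemma S2.dx (h : S2 G) (j : Fin 3) : S2 fun x y => H459R3.NS.pd j (fun x => G x y) x := (h.swap.dy j).swap

lemma S2.bb_dx (h : S2 G) (j : Fin 3) (l k : K) :
    bb (fun x y => H459R3.NS.pd j (fun x => G x y) x) l k = 2 * Real.pi * Complex.I * (l j : ℂ) * bb G l k := by
  rw [(h.dx j).bb_swap, h.bb_swap]
  exact h.swap.bb_dy j k l

lemma N_le_sum (k : K) : (H459R3.NS.N k : ℝ) ≤ ∑ j, |(k j : ℝ)| := by
  have := H459R3.NS.N_pow_le k 1
  simpa using this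

lemma S2.decay (h : S2 G) (m m' : ℕ) :
    ∃ C : ℝ, ∀ l k, (H459R3.NS.N l : ℝ) ^ m * (H459R3.NS.N k : ℝ) ^ m' * ‖bb G l k‖ ≤ C := by
  have hpi : 1 ≤ 2 * Real.pi := by nlinarith [Real.pi_gt_three]
  have hn : ∀ (a : ℤ) (b : ℂ), |(a : ℝ)| * ‖b‖ ≤ ‖2 * Real.pi * Complex.I * (a : ℂ) * b‖ := by
    intro a b
    rw [norm_mul, norm_mul, norm_mul, norm_mul, Complex.norm_I, Complex.norm_real, Complex.norm_intCast]
    simp only [Complex.norm_ofNat, mul_one, Real.norm_eq_abs, abs_of_pos Real.pi_pos]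
    have h0 : 0 ≤ |(a : ℝ)| * ‖b‖ := by positivity
    nlinarith
  induction m generalizing G m' with
  | zero =>
    induction m' generalizing G with
    | zero =>
      obtain ⟨M, _, hM⟩ := h.bb_le
      exact ⟨M, fun l k => by simpa using hM l k⟩
    | succ m' ih =>
      choose C hC using fun j => ih (h.dy j)
      refine ⟨∑ j, C j, fun l k => ?_⟩
      rw [pow_zero, one_mul, pow_succ]
      calc (H459R3.NS.N k : ℝ) ^ m' * H459R3.NS.N k * ‖bb G l k‖
          ≤ (H459R3.NS.N k : ℝ) ^ m' * (∑ j, |(k j : ℝ)|) * ‖bb G l k‖ := by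
            gcongr; exact N_le_sum k
        _ = ∑ j, (H459R3.NS.N k : ℝ) ^ m' * (|(k j : ℝ)| * ‖bb G l k‖) := by
            rw [Finset.mul_sum, Finset.sum_mul]
            exact Finset.sum_congr rfl fun j _ => by ring
        _ ≤ ∑ j, C j := by
            refine Finset.sum_le_sum fun j _ => ?_
            have h1 := hC j l k
            rw [h.bb_dy, pow_zero, one_mul] at h1
            exact (mul_le_mul_of_nonneg_left (hn _ _) (by positivity)).trans h1
  | succ m ih =>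
    choose C hC using fun j => ih (h.dx j) m'
    refine ⟨∑ j, C j, fun l k => ?_⟩
    rw [pow_succ]
    calc (H459R3.NS.N l : ℝ) ^ m * H459R3.NS.N l * (H459R3.NS.N k : ℝ) ^ m' * ‖bb G l k‖
        ≤ (H459R3.NS.N l : ℝ) ^ m * (∑ j, |(l j : ℝ)|) * (H459R3.NS.N k : ℝ) ^ m' * ‖bb G l k‖ := by
          gcongr; exact N_le_sum l
      _ = ∑ j, (H459R3.NS.N l : ℝ) ^ m * (H459R3.NS.N k : ℝ) ^ m' * (|(l j : ℝ)| * ‖bb G l k‖) := by
          rw [Finset.mul_sum, Finset.sum_mul, Finset.sum_mul]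
          exact Finset.sum_congr rfl fun j _ => by ring
      _ ≤ ∑ j, C j := by
          refine Finset.sum_le_sum fun j _ => ?_
          have h1 := hC j l k
          rw [h.bb_dx] at h1
          exact (mul_le_mul_of_nonneg_left (hn _ _) (by positivity)).trans h1

/-- the weight `1/(1+|k|)^4` -/
lemma summable_N4' : Summable fun k : K => 1 / (1 + (H459R3.NS.N k : ℝ)) ^ 4 := by
  have h1 : Summable fun k : K => (if k = 0 then (1 : ℝ) else 0) + (if k = 0 then (0 : ℝ) else 1 / (H459R3.NS.N k : ℝ) ^ 4) :=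
    (summable_of_ne_finset_zero (s := {0}) fun k hk => by
      rw [Finset.mem_singleton] at hk; rw [if_neg hk]).add H459R3.NS.summable_N4
  refine h1.of_nonneg_of_le (fun k => by positivity) fun k => ?_
  by_cases hk : k = 0
  · subst hk
    have : H459R3.NS.N (0 : K) = 0 := H459R3.NS.N_eq_zero.2 rfl
    rw [this]; simp
  · rw [if_neg hk, if_neg hk, zero_add]
    have hN : 1 ≤ H459R3.NS.N k := Nat.one_le_iff_ne_zero.2 fun h => hk (H459R3.NS.N_eq_zero.1 h)
    have hN' : (0 : ℝ) < H459R3.NS.N k := by exact_mod_cast hN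
    exact one_div_le_one_div_of_le (by positivity) (pow_le_pow_left₀ hN'.le (by linarith) 4)

lemma S2.decay' (h : S2 G) (m : ℕ) : ∃ C : ℝ, 0 ≤ C ∧ ∀ l k,
    (1 + (H459R3.NS.N l : ℝ)) ^ m * ‖bb G l k‖ ≤ C * (1 / (1 + (H459R3.NS.N l : ℝ)) ^ 4 * (1 / (1 + (H459R3.NS.N k : ℝ)) ^ 4)) := by
  obtain ⟨C1, hC1⟩ := h.decay 0 0
  obtain ⟨C2, hC2⟩ := h.decay (m + 4) 0
  obtain ⟨C3, hC3⟩ := h.decay 0 4
  obtain ⟨C4, hC4⟩ := h.decay (m + 4) 4
  have key : ∀ (a b : ℝ), 0 ≤ a → 0 ≤ b → (1 + a) ^ (m + 4) * (1 + b) ^ 4 ≤ 2 ^ (m + 8) * (1 + a ^ (m + 4)) * (1 + b ^ 4) := by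
    intro a b ha hb
    have h1 : ∀ (x : ℝ) (n : ℕ), 0 ≤ x → (1 + x) ^ n ≤ 2 ^ n * (1 + x ^ n) := by
      intro x n hx
      rcases le_total x 1 with hx1 | hx1
      · calc (1 + x) ^ n ≤ 2 ^ n := pow_le_pow_left₀ (by linarith) (by linarith) n
          _ ≤ _ := by
            have := pow_nonneg hx n
            nlinarith [pow_pos (two_pos : (0 : ℝ) < 2) n]
      · calc (1 + x) ^ n ≤ (2 * x) ^ n := pow_le_pow_left₀ (by linarith) (by linarith) n
          _ = 2 ^ n * x ^ n := mul_pow _ _ _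
          _ ≤ _ := by nlinarith [pow_pos (two_pos : (0 : ℝ) < 2) n]
    calc (1 + a) ^ (m + 4) * (1 + b) ^ 4 ≤ (2 ^ (m + 4) * (1 + a ^ (m + 4))) * (2 ^ 4 * (1 + b ^ 4)) :=
          mul_le_mul (h1 a _ ha) (h1 b _ hb) (by positivity) (by positivity)
      _ = _ := by ring
  refine ⟨2 ^ (m + 8) * (|C1| + |C2| + |C3| + |C4|), by positivity, fun l k => ?_⟩
  set a : ℝ := (H459R3.NS.N l : ℝ)
  set b : ℝ := (H459R3.NS.N k : ℝ)
  have ha : 0 ≤ a := Nat.cast_nonneg _
  have hb : 0 ≤ b := Nat.cast_nonneg _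
  have h1 := (hC1 l k).trans (le_abs_self C1)
  have h2 := (hC2 l k).trans (le_abs_self C2)
  have h3 := (hC3 l k).trans (le_abs_self C3)
  have h4 := (hC4 l k).trans (le_abs_self C4)
  have e : (1 / (1 + a) ^ 4 * (1 / (1 + b) ^ 4)) = 1 / ((1 + a) ^ 4 * (1 + b) ^ 4) := by
    rw [one_div_mul_one_div_rev]; ring
  rw [e, mul_one_div, le_div_iff₀ (by positivity)]
  calc (1 + a) ^ m * ‖bb G l k‖ * ((1 + a) ^ 4 * (1 + b) ^ 4)
      = ((1 + a) ^ (m + 4) * (1 + b) ^ 4) * ‖bb G l k‖ := by ring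
    _ ≤ (2 ^ (m + 8) * (1 + a ^ (m + 4)) * (1 + b ^ 4)) * ‖bb G l k‖ :=
        mul_le_mul_of_nonneg_right (key a b ha hb) (norm_nonneg _)
    _ = 2 ^ (m + 8) * (a ^ 0 * b ^ 0 * ‖bb G l k‖ + a ^ (m + 4) * b ^ 0 * ‖bb G l k‖ + a ^ 0 * b ^ 4 * ‖bb G l k‖
          + a ^ (m + 4) * b ^ 4 * ‖bb G l k‖) := by ring
    _ ≤ _ := by gcongr

/-- the coefficients in the second variable as Fourier series in the first variable -/
lemma S2.series (h : S2 G) (k : K) (x : R3) : HasSum (fun l => bb G l k * H459R3.NS.ee l x) (H459R3.NS.fr (G x) k) := by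
  refine H459R3.NS.hasSum_fc (h.php k) (h.phc k) ?_ x
  obtain ⟨C, hC0, hC⟩ := h.decay' 0
  refine Summable.of_norm_bounded (g := fun l => C * (1 / (1 + (H459R3.NS.N l : ℝ)) ^ 4)) (summable_N4'.mul_left C) fun l => ?_
  have h1 := hC l k
  rw [pow_zero, one_mul] at h1
  refine (show ‖bb G l k‖ ≤ _ from h1).trans ?_
  refine mul_le_mul_of_nonneg_left ?_ hC0
  have h2 : 1 / (1 + (H459R3.NS.N k : ℝ)) ^ 4 ≤ 1 := by
    rw [div_le_one (by positivity)]
    exact one_le_pow₀ (by have := Nat.cast_nonneg (α := ℝ) (H459R3.NS.N k); linarith)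
  exact mul_le_of_le_one_right (by positivity) h2

end Pool.Agent.U162.GE
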