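import Pool.Agent.U162.GE.All

/-!
The two-scale theorem in physical variables
-/

open MeasureTheory Set Filter Topology
open scoped ENNReal NNReal ContDiff

namespace Pool.Agent.U162.GE

open Pool.Agent.H356R3.NS Pool.Agent.U162.TS Pool.Agent.U162.TS.EL Pool.Agent.U162.PL

variable {ν : ℝ} {v : ℝ → R3 → R3} {p : ℝ → R3 → ℝ} {u : Fam} {U : ℝ → R3 → R3}

lemma v_series (hG : Ph.Glob ν v p) : ∀ t, 0 ≤ t → ∀ x i, ((v t x i : ℝ) : ℂ) = ∑' k, Ph.XF v k t i * ex k x := by
  intro t ht x i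
  have := H459R3.NS.S_fr (hG.sp ht i) x
  rw [← this]
  unfold H459R3.NS.S Ph.XF Pool.Agent.Q63.Win.cof
  rw [max_eq_left ht]
  refine tsum_congr fun k => ?_
  congr 1
  unfold H459R3.NS.ee H459R3.NS.ph ex
  congr 1
  push_cast
  rfl

lemma close_after (hG : Ph.Glob ν v p) (hd : Dom u) (hU : ∀ t x i, U t x i = (∑' k, u k t i * ex k x).re)
    {ε : ℝ} (hε : 0 < ε) (hcl : LNd ε (u - Ph.XF v) ≤ ENNReal.ofReal (min ε 1 / 2)) : CloseAfter ε U v := by
  have m3 : 0 < min ε 1 := lt_min hε one_pos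
  have m1 : min ε 1 ≤ ε := min_le_left _ _
  have m2 : min ε 1 ≤ 1 := min_le_right _ _
  have hv1 := v_series hG
  have su : ∀ t i x, Summable fun k => u k t i * ex k x := by
    intro t i x
    refine Summable.of_norm_bounded (hd.sn t) fun k => ?_
    rw [norm_mul, norm_ex, mul_one]
    exact norm_le_pi_norm (u k t) i
  have sx : ∀ t, 0 ≤ t → ∀ i x, Summable fun k => Ph.XF v k t i * ex k x := by
    intro t _ i x
    refine Summable.of_norm_bounded (Ph.summ_XF hG t) fun k => ?_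
    rw [norm_mul, norm_ex, mul_one]
    exact norm_le_pi_norm (Ph.XF v k t) i
  unfold CloseAfter
  have hpt : ∀ t, 0 ≤ t → (⨆ x, ‖U t x - v t x‖ₑ) ≤ NW (Wa 0) (at' (u - Ph.XF v) t) := by
    intro t ht
    refine iSup_le fun x => ?_
    have hs2 := Ph.summ_XF hG t
    have hs3 : Summable fun k => ‖(u - Ph.XF v) k t‖ :=
      (Summable.add (show Summable fun k => ‖u k t‖ from hd.sn t) hs2).of_nonneg_of_le
        (fun _ => norm_nonneg _) fun k => norm_sub_le _ _
    have e0 : NW (Wa 0) (at' (u - Ph.XF v) t) = ENNReal.ofReal (∑' k, ‖(u - Ph.XF v) k t‖) := by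
      rw [NW_Wa0, ENNReal.ofReal_tsum_of_nonneg (fun _ => norm_nonneg _) hs3]
      simp [at']
    rw [e0, ← ofReal_norm]
    apply ENNReal.ofReal_le_ofReal
    rw [pi_norm_le_iff_of_nonneg (tsum_nonneg fun _ => norm_nonneg _)]
    intro i
    have e1 : (((U t x - v t x) i : ℝ)) = (∑' k, (u - Ph.XF v) k t i * ex k x).re := by
      have e2 : ∀ k, (u - Ph.XF v) k t i * ex k x = u k t i * ex k x - Ph.XF v k t i * ex k x := by
        intro k
        rw [Pi.sub_apply, Pi.sub_apply, Pi.sub_apply, sub_mul]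
      simp only [e2]
      rw [(su t i x).tsum_sub (sx t ht i x), Complex.sub_re, ← hv1 t ht, Complex.ofReal_re, ← hU]
      rfl
    rw [e1, Real.norm_eq_abs]
    refine (Complex.abs_re_le_norm _).trans ?_
    have hs4 : Summable fun k => ‖(u - Ph.XF v) k t i * ex k x‖ := by
      refine hs3.of_nonneg_of_le (fun _ => norm_nonneg _) fun k => ?_
      rw [norm_mul, norm_ex, mul_one]
      exact norm_le_pi_norm ((u - Ph.XF v) k t) i
    refine (norm_tsum_le_tsum_norm hs4).trans (hs4.tsum_le_tsum (fun k => ?_) hs3)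
    rw [norm_mul, norm_ex, mul_one]
    exact norm_le_pi_norm ((u - Ph.XF v) k t) i
  have h2 : ∫⁻ t in Ioi ε, (⨆ x, ‖U t x - v t x‖ₑ) ^ 2 ≤ LNd ε (u - Ph.XF v) ^ 2 := by
    unfold LNd LN
    rw [← ENNReal.rpow_two, ← ENNReal.rpow_mul]
    norm_num
    calc _ ≤ ∫⁻ t in Ioi ε, NW (Wa 0) (at' (u - Ph.XF v) t) ^ 2 :=
          setLIntegral_mono' measurableSet_Ioi fun t ht =>
            pow_le_pow_left' (hpt t (hε.le.trans (le_of_lt ht))) 2
      _ = ∫⁻ t in Ioi ε, ((Ioi ε).indicator (fun t => NW (Wa 0) (at' (u - Ph.XF v) t)) t) ^ 2 :=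
          setLIntegral_congr_fun measurableSet_Ioi fun t ht => by
            simp only [indicator_of_mem ht]
      _ ≤ _ := lintegral_mono_set fun t ht => lt_trans hε ht
  refine h2.trans ((pow_le_pow_left' hcl 2).trans ?_)
  rw [← ENNReal.ofReal_pow (by positivity)]
  apply ENNReal.ofReal_le_ofReal
  nlinarith

lemma close_two {c σ : ℝ} (hG : Ph.Glob ν v p) (hX : CF (Ph.XF v)) (hcu : CF u) (hd : Dom u)
    (hU : ∀ t x i, U t x i = (∑' k, u k t i * ex k x).re)
    {w : K × K → ℝ → C3} (hw : CellFlow c w σ) {W : R3 → ℝ → R3 → R3}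
    (hW : ∀ x s y i, 0 ≤ s → ((W x s y i : ℝ) : ℂ) = ∑' P, w P s i * (ch P.1 x * ch P.2 y))
    {F : Finset (K × K)} {N : ℕ} (hN : 1 ≤ N) {ε : ℝ} (hε : 0 < ε)
    (hF : LN (fun s => ∑' P : K × K, if P ∈ F then 0 else ‖w P s‖ₑ) ≤ ENNReal.ofReal (min ε 1 / 2))
    (hasy : LN (fun t => NW (Wa 0) (at' (u - Ph.XF v - FM N F (zφ w N)) t)) ≤ ENNReal.ofReal (min ε 1 / 2)) :
    CloseTwoScale ε N U v W := by
  have m3 : 0 < min ε 1 := lt_min hε one_pos
  have m1 : min ε 1 ≤ ε := min_le_left _ _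
  have m2 : min ε 1 ≤ 1 := min_le_right _ _
  have hNpos : (0 : ℝ) < N := by exact_mod_cast hN
  have hv1 := v_series hG
  have su : ∀ t i x, Summable fun k => u k t i * ex k x := by
    intro t i x
    refine Summable.of_norm_bounded (hd.sn t) fun k => ?_
    rw [norm_mul, norm_ex, mul_one]
    exact norm_le_pi_norm (u k t) i
  have sx : ∀ t, 0 ≤ t → ∀ i x, Summable fun k => Ph.XF v k t i * ex k x := by
    intro t _ i x
    refine Summable.of_norm_bounded (Ph.summ_XF hG t) fun k => ?_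
    rw [norm_mul, norm_ex, mul_one]
    exact norm_le_pi_norm (Ph.XF v k t) i
  unfold CloseTwoScale
  set FF := FM N F (zφ w N) with hFF
  set T : ℝ → ℝ≥0∞ := fun s => ∑' P : K × K, if P ∈ F then 0 else ‖w P s‖ₑ with hT
  have hTm : Measurable T := by
    refine Measurable.tsum fun P => ?_
    split_ifs
    · exact measurable_const
    · exact (hw.cw P).enorm.measurable
  have hpt : ∀ t ∈ Ioi (0 : ℝ), (⨆ x, ‖U t x - v t x - (N : ℝ) • W x ((N : ℝ) ^ 2 * t) ((N : ℝ) • x)‖ₑ)
      ≤ NW (Wa 0) (at' (u - Ph.XF v - FF) t) + ENNReal.ofReal N * T ((N : ℝ) ^ 2 * t) := by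
    intro t ht0
    have ht : (0 : ℝ) ≤ t := le_of_lt ht0
    have hNt : 0 ≤ (N : ℝ) ^ 2 * t := by positivity
    refine iSup_le fun x => ?_
    have key : ∀ i, ‖((U t x - v t x - (N : ℝ) • W x ((N : ℝ) ^ 2 * t) ((N : ℝ) • x)) i : ℝ)‖ₑ
        ≤ NW (Wa 0) (at' (u - Ph.XF v - FF) t) + ENNReal.ofReal N * T ((N : ℝ) ^ 2 * t) := by
      intro i
      obtain ⟨f1, f2⟩ := tsum_lf N F (fun P => zφ w N P (max t 0)) i x
      have sw : Summable fun P : K × K => w P ((N : ℝ) ^ 2 * t) i * ex (kp N P) x := by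
        refine Summable.of_norm_bounded (hw.sn ((N : ℝ) ^ 2 * t)) fun P => ?_
        rw [norm_mul, norm_ex, mul_one]
        exact norm_le_pi_norm (w P _) i
      have sF : Summable fun P : K × K => (if P ∈ F then w P ((N : ℝ) ^ 2 * t) i * ex (kp N P) x else 0) :=
        summable_of_ne_finset_zero (s := F) fun P hP => by rw [if_neg hP]
      have sF' : Summable fun P : K × K => (if P ∈ F then 0 else w P ((N : ℝ) ^ 2 * t) i * ex (kp N P) x) := by
        refine (sw.sub sF).congr fun P => ?_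
        split_ifs <;> ring
      have g1 : ∑' P : K × K, w P ((N : ℝ) ^ 2 * t) i * ex (kp N P) x
          = (∑ P ∈ F, w P ((N : ℝ) ^ 2 * t) i * ex (kp N P) x)
            + ∑' P : K × K, (if P ∈ F then 0 else w P ((N : ℝ) ^ 2 * t) i * ex (kp N P) x) := by
        have g0 : ∑' P : K × K, (if P ∈ F then w P ((N : ℝ) ^ 2 * t) i * ex (kp N P) x else 0)
            = ∑ P ∈ F, w P ((N : ℝ) ^ 2 * t) i * ex (kp N P) x := by
          rw [tsum_eq_sum (s := F) (fun P hP => if_neg hP)]
          exact Finset.sum_congr rfl fun P hP => if_pos hP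
        rw [← g0, ← sF.tsum_add sF']
        refine tsum_congr fun P => ?_
        split_ifs <;> ring
      have g2 : ∑' k, FF k t i * ex k x = N * ∑ P ∈ F, w P ((N : ℝ) ^ 2 * t) i * ex (kp N P) x := by
        rw [show (fun k => FF k t i * ex k x) = fun k => lf N F (fun P => zφ w N P (max t 0)) k i * ex k x from rfl,
          f2, Finset.mul_sum]
        refine Finset.sum_congr rfl fun P _ => ?_
        unfold zφ
        rw [max_eq_left ht, Pi.smul_apply, Complex.real_smul]
        push_cast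
        ring
      have e1 : (((U t x - v t x - (N : ℝ) • W x ((N : ℝ) ^ 2 * t) ((N : ℝ) • x)) i : ℝ))
          = (∑' k, (u - Ph.XF v - FF) k t i * ex k x
            - N * ∑' P : K × K, (if P ∈ F then 0 else w P ((N : ℝ) ^ 2 * t) i * ex (kp N P) x)).re := by
        have e2 : ∀ k, (u - Ph.XF v - FF) k t i * ex k x
            = u k t i * ex k x - Ph.XF v k t i * ex k x - FF k t i * ex k x := by
          intro k
          simp only [Pi.sub_apply, sub_mul]
        simp only [e2]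
        have f1' : Summable fun k => FF k t i * ex k x := f1
        rw [((su t i x).sub (sx t ht i x)).tsum_sub f1', (su t i x).tsum_sub (sx t ht i x), ← hv1 t ht, g2]
        have e3 : ((W x ((N : ℝ) ^ 2 * t) ((N : ℝ) • x) i : ℝ) : ℂ)
            = ∑' P : K × K, w P ((N : ℝ) ^ 2 * t) i * ex (kp N P) x := by
          rw [hW _ _ _ _ hNt]
          refine tsum_congr fun P => ?_
          rw [ch_kp]
        have e4 : (N : ℂ) * (∑ P ∈ F, w P ((N : ℝ) ^ 2 * t) i * ex (kp N P) x)
            + N * ∑' P : K × K, (if P ∈ F then 0 else w P ((N : ℝ) ^ 2 * t) i * ex (kp N P) x)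
            = (((N : ℝ) * W x ((N : ℝ) ^ 2 * t) ((N : ℝ) • x) i : ℝ) : ℂ) := by
          rw [Complex.ofReal_mul, e3, g1]
          push_cast
          ring
        have e5 : ∀ A V X Y Z : ℂ, X + Y = Z → A - V - X - Y = A - V - Z := fun A V X Y Z h => by
          rw [← h]; ring
        rw [e5 _ _ _ _ _ e4, Complex.sub_re, Complex.sub_re, Complex.ofReal_re, Complex.ofReal_re, ← hU]
        rfl
      rw [e1]
      refine (enorm_le_iff_norm_le.2 ((Real.norm_eq_abs _).le.trans (Complex.abs_re_le_norm _))).trans ?_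
      refine enorm_sub_le.trans (add_le_add ?_ ?_)
      · rw [NW_Wa0]
        refine enorm_tsum_le_tsum_enorm.trans (ENNReal.tsum_le_tsum fun k => ?_)
        refine enorm_le_iff_norm_le.2 ?_
        rw [norm_mul, norm_ex, mul_one]
        exact norm_le_pi_norm _ i
      · rw [enorm_mul]
        refine mul_le_mul' ?_ (enorm_tsum_le_tsum_enorm.trans (ENNReal.tsum_le_tsum fun P => ?_))
        · rw [← ofReal_norm]
          simp
        · split_ifs
          · simp
          · refine enorm_le_iff_norm_le.2 ?_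
            rw [norm_mul, norm_ex, mul_one]
            exact norm_le_pi_norm _ i
    set B := NW (Wa 0) (at' (u - Ph.XF v - FF) t) + ENNReal.ofReal N * T ((N : ℝ) ^ 2 * t) with hB
    by_cases hBt : B = ⊤
    · rw [hBt]; exact le_top
    have hBr : B = ENNReal.ofReal B.toReal := (ENNReal.ofReal_toReal hBt).symm
    rw [hBr, ← ofReal_norm]
    apply ENNReal.ofReal_le_ofReal
    rw [pi_norm_le_iff_of_nonneg ENNReal.toReal_nonneg]
    intro i
    have := key i
    rw [hBr, ← ofReal_norm] at this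
    exact (ENNReal.ofReal_le_ofReal_iff ENNReal.toReal_nonneg).1 this
  have hcF : CF FF := FM_cf hw.cw F N
  have hcc : CF (u - Ph.XF v - FF) := fun k => ((hcu k).sub (hX k)).sub (hcF k)
  have hm1 := NW_meas (Wa 0) hcc
  have hm2 : Measurable fun t : ℝ => ENNReal.ofReal N * T ((N : ℝ) ^ 2 * t) :=
    (hTm.comp (measurable_const_mul _)).const_mul _
  have hLN : LN (fun t => ⨆ x, ‖U t x - v t x - (N : ℝ) • W x ((N : ℝ) ^ 2 * t) ((N : ℝ) • x)‖ₑ)
      ≤ ENNReal.ofReal (min ε 1) := by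
    calc _ ≤ LN (fun t => NW (Wa 0) (at' (u - Ph.XF v - FF) t) + ENNReal.ofReal N * T ((N : ℝ) ^ 2 * t)) :=
          LN_mono hpt
      _ ≤ LN (fun t => NW (Wa 0) (at' (u - Ph.XF v - FF) t)) + LN (fun t => ENNReal.ofReal N * T ((N : ℝ) ^ 2 * t)) :=
          LN_add_le hm1 hm2
      _ ≤ ENNReal.ofReal (min ε 1 / 2) + ENNReal.ofReal (min ε 1 / 2) := by
          rw [LN_scale hNpos hTm]
          exact add_le_add hasy hF
      _ = _ := by
          rw [← ENNReal.ofReal_add (by positivity) (by positivity)]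
          congr 1; ring
  have h2 : ∫⁻ t in Ioi (0 : ℝ), (⨆ x, ‖U t x - v t x - (N : ℝ) • W x ((N : ℝ) ^ 2 * t) ((N : ℝ) • x)‖ₑ) ^ 2
      = (LN (fun t => ⨆ x, ‖U t x - v t x - (N : ℝ) • W x ((N : ℝ) ^ 2 * t) ((N : ℝ) • x)‖ₑ)) ^ 2 := by
    unfold LN
    rw [← ENNReal.rpow_two, ← ENNReal.rpow_mul]
    norm_num
  rw [h2]
  refine (pow_le_pow_left' hLN 2).trans ?_
  rw [← ENNReal.ofReal_pow m3.le]
  apply ENNReal.ofReal_le_ofReal
  nlinarith

/-- physical solutions, with the velocity -/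
theorem adm_of_sol' {c : ℝ} (hc : 0 < c) (hcν : c = 4 * Real.pi ^ 2 * ν) {z : EE} {v : K → C3} (hv : Dta v)
    (hz : Phi hc z = hE hc v hv.sum) :
    AdmissiblePeriodic ν (fun x i => (∑' k, v k i * ch k x).re)
      (fun t x i => (∑' k, XX c z k t i * ex k x).re) (fun t x => (GS 0 (PF (XX c z)) t x).re) := by
  have h := phys_gen (ν := ν) (u := XX c z) (XX_rd hc hv hz) (XX_cf z) (XX_sym hc hv hz)
    (XX_div hc hz hv.mean hv.div) (fun k t ht => by rw [← hcν]; exact XX_ode hc hz hv.mean k t ht) 0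
  have e : (fun (x : E3) i => (0 : E3) i + (∑' k, XX c z k 0 i * ex k x).re)
      = fun x i => (∑' k, v k i * ch k x).re := by
    funext x i
    rw [Pi.zero_apply, zero_add]
    congr 2
    funext k
    rw [XX_init hc hz hv.mean]; rfl
  have e3 : (fun (t : ℝ) (x : E3) i => (0 : E3) i + (GS 0 (cf' (XX c z) i) t x).re)
      = fun t x i => (∑' k, XX c z k t i * ex k x).re := by
    funext t x i
    unfold GS SF cf'
    simp
  rw [e, e3] at h
  exact h

end Pool.Agent.U162.GE
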