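import Pool.Agent.U162.TS.Defs2

/-!
# Smooth two-scale data
-/

open Set MeasureTheory
open scoped ContDiff ENNReal

namespace Pool.Agent.U162.GE

open Pool.Agent.H356R3.NS Pool.Agent.U162.TS

/-- Smooth periodic divergence free vector fields without mean. -/
structure Field (a : R3 → R3) : Prop where
  smooth : ContDiff ℝ ∞ a
  periodic : ∀ x j, a (x + Pi.single j 1) = a x
  divFree : ∀ x, ∑ i, pd i (fun y => a y i) x = 0
  mean : ∀ i, ∫ x in Icc (0 : R3) 1, a x i = 0

/-- Smooth two-scale profiles `V(x,y)`: periodic in `x` and `y`, with `div_y V = 0` and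
`∫ V(x,y) dy = 0` for all `x`. -/
structure Profile (V : R3 → R3 → R3) : Prop where
  smooth : ContDiff ℝ ∞ fun z : R3 × R3 => V z.1 z.2
  periodic : ∀ x y j, V (x + Pi.single j 1) y = V x y
  field : ∀ x, Field (V x)

/-- The Fourier coefficients of the data `a(x) + N P[V(x, N x)]`, where `P` is the Leray projection. -/
noncomputable def mix (a : R3 → R3) (V : R3 → R3 → R3) (N : ℕ) (k : Fq) (i : Fin 3) : ℂ :=
  fc a k i + N * leray k (fc (fun x => V x ((N : ℝ) • x)) k) i

/-- The square of the critical norm `(∫_0^∞ (∑_{k ≠ 0} exp(-4π²ν|k|²t) |d(k)|)² dt)^(1/2)` of the field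
with the Fourier coefficients `d`. -/
noncomputable def heatSq (ν : ℝ) (d : Fq → Fin 3 → ℂ) : ℝ≥0∞ :=
  ∫⁻ t in Ioi (0 : ℝ), (∑' k : Fq, if k = 0 then 0 else
    ENNReal.ofReal (Real.exp (-(4 * Real.pi ^ 2 * ν * (∑ j, (k j : ℝ) ^ 2) * t))) * ‖d k‖ₑ) ^ 2

/-- `f` does not depend on the direction `n`. -/
def Inv {E : Type*} (n : Fq) (f : R3 → E) : Prop := ∀ (x : R3) (θ : ℝ), f (x + fun i => θ * (n i : ℝ)) = f x

end Pool.Agent.U162.GE
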