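import Pool.Agent.U162.GE.Hn

/-!
The data at two scales
-/

open MeasureTheory Set Filter Topology
open scoped ENNReal NNReal

namespace Pool.Agent.U162.GE

open Pool.Agent.H356R3.NS Pool.Agent.U162.TS

/-- the data: the divergence free part of `V0(x) + N w(x, N x)`, without the mean -/
noncomputable def DN (V0 : K → C3) (w0 : K × K → C3) (N : ℕ) (κ : K) : C3 :=
  if κ = 0 then 0 else V0 κ + ∑' k : K, (N : ℝ) • pr κ (w0 (κ - (N : ℤ) • k, k))

lemma N_div_le {N : ℕ} {κ k : K} (hκ : κ ≠ 0) (hk : k ≠ 0) : (N : ℝ) / nk κ ≤ 1 + nk (κ - (N : ℤ) • k) := by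
  have h1 : (N : ℝ) * 1 ≤ nk ((N : ℤ) • k) := by
    rw [nk_nsmul]
    exact mul_le_mul_of_nonneg_left (one_le_nk hk) (Nat.cast_nonneg N)
  have h2 : nk ((N : ℤ) • k) ≤ nk κ + nk (κ - (N : ℤ) • k) := by
    have := nk_add κ (-(κ - (N : ℤ) • k))
    rw [nk_neg] at this
    have e : κ + -(κ - (N : ℤ) • k) = (N : ℤ) • k := by abel
    rwa [e] at this
  have h3 := one_le_nk hκ
  have h4 := nk_nonneg (κ - (N : ℤ) • k)
  rw [div_le_iff₀ (by positivity)]
  nlinarith

/-- the map to the pairs of frequencies -/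
def ph2 (N : ℕ) (κ k : K) : K × K := (κ - (N : ℤ) • k, k)

lemma ph2_inj (N : ℕ) (κ : K) : Function.Injective (ph2 N κ) := fun k l h => congrArg Prod.snd h

lemma kp_ph2 (N : ℕ) (κ k : K) : kp N (ph2 N κ k) = κ := by unfold kp ph2; simp

lemma ph2_kp (N : ℕ) (P : K × K) : ph2 N (kp N P) P.2 = P := by
  unfold kp ph2
  ext1 <;> simp

lemma dat_eq {w : K × K → ℝ → C3} (hk0 : ∀ P : K × K, P.2 = 0 → ∀ s, w P s = 0) (F : Finset (K × K)) (N : ℕ) (κ : K) :
    dat N (cS F) (cw' F w) κ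
      = ∑' k : K, if ph2 N κ k ∈ F then (N : ℝ) • pr κ (w (ph2 N κ k) 0) else 0 := by
  classical
  have h1 : ∑' k : K, (if ph2 N κ k ∈ F then (N : ℝ) • pr κ (w (ph2 N κ k) 0) else 0)
      = ∑' P : K × K, if P ∈ F ∧ kp N P = κ then (N : ℝ) • pr κ (w P 0) else 0 := by
    rw [← (ph2_inj N κ).tsum_eq (f := fun P : K × K => if P ∈ F ∧ kp N P = κ then (N : ℝ) • pr κ (w P 0) else 0)]
    · refine tsum_congr fun k => ?_
      simp only [kp_ph2, and_true]
    · intro P hP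
      rw [Function.mem_support] at hP
      have : kp N P = κ := by
        by_contra h
        exact hP (if_neg fun h' => h h'.2)
      exact ⟨P.2, by rw [← this, ph2_kp]⟩
  rw [h1, tsum_eq_sum (s := F) fun P hP => if_neg fun h => hP h.1]
  unfold dat lf
  rw [Finset.sum_apply]
  have h2 : ∀ P ∈ cS F, Sg (kp N P) ((N : ℝ) • pr (kp N P) (cw' F w P 0)) κ
      = if P ∈ F ∧ kp N P = κ then (N : ℝ) • pr κ (w P 0) else 0 := by
    intro P hP
    have hPF := (mem_cS.1 hP).1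
    unfold Sg cw'
    by_cases h : κ = kp N P
    · rw [if_pos h, if_pos hP, if_pos ⟨hPF, h.symm⟩, ← h]
    · rw [if_neg h, if_neg fun h' => h h'.2.symm]
  rw [Finset.sum_congr rfl h2]
  refine Finset.sum_subset (fun P hP => (mem_cS.1 hP).1) fun P hP hP' => ?_
  have : P.2 = 0 := by
    by_contra h
    exact hP' (mem_cS.2 ⟨hP, h⟩)
  rw [hk0 P this, pr_zero, smul_zero, ite_self]

lemma summ_ph2 {w0 : K × K → C3} (hs : Summable fun P => ‖w0 P‖) (N : ℕ) (κ : K) :
    Summable fun k : K => (N : ℝ) • pr κ (w0 (ph2 N κ k)) := by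
  have h1 : Summable fun k : K => ‖w0 (ph2 N κ k)‖ := hs.comp_injective (ph2_inj N κ)
  refine Summable.of_norm_bounded (g := fun k => (N : ℝ) * (4 * ‖w0 (ph2 N κ k)‖)) ((h1.mul_left 4).mul_left _) fun k => ?_
  rw [norm_smul, Real.norm_of_nonneg (Nat.cast_nonneg N)]
  exact mul_le_mul_of_nonneg_left (PL.leray_norm _ _) (Nat.cast_nonneg N)

/-- the difference of the data and the truncated data -/
lemma DN_sub {V0 : K → C3} {w : K × K → ℝ → C3} (hk0 : ∀ P : K × K, P.2 = 0 → ∀ s, w P s = 0)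
    (hs : Summable fun P => ‖w P 0‖) (F : Finset (K × K)) (Fb : Finset K) (N : ℕ) {κ : K} (hκ : κ ≠ 0) :
    (DN V0 (fun P => w P 0) N - (res Fb V0 + dat N (cS F) (cw' F w))) κ
      = (if κ ∈ Fb then 0 else V0 κ) + ∑' k : K, if ph2 N κ k ∈ F then 0 else (N : ℝ) • pr κ (w (ph2 N κ k) 0) := by
  classical
  have h1 := summ_ph2 (w0 := fun P => w P 0) hs N κ
  have h2 : Summable fun k : K => if ph2 N κ k ∈ F then (N : ℝ) • pr κ (w (ph2 N κ k) 0) else 0 := by
    have := h1.indicator {k | ph2 N κ k ∈ F}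
    refine this.congr fun k => ?_
    by_cases h : ph2 N κ k ∈ F
    · rw [if_pos h, indicator_of_mem (show k ∈ {k | ph2 N κ k ∈ F} from h)]
    · rw [if_neg h, indicator_of_notMem (show k ∉ {k | ph2 N κ k ∈ F} from h)]
  have h3 : ∑' k : K, (if ph2 N κ k ∈ F then 0 else (N : ℝ) • pr κ (w (ph2 N κ k) 0))
      = (∑' k : K, (N : ℝ) • pr κ (w (ph2 N κ k) 0))
        - ∑' k : K, if ph2 N κ k ∈ F then (N : ℝ) • pr κ (w (ph2 N κ k) 0) else 0 := by
    rw [← h1.tsum_sub h2]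
    refine tsum_congr fun k => ?_
    by_cases h : ph2 N κ k ∈ F
    · rw [if_pos h, if_pos h, sub_self]
    · rw [if_neg h, if_neg h, sub_zero]
  rw [h3, ← dat_eq hk0 F N κ]
  simp only [Pi.sub_apply, Pi.add_apply, res]
  unfold DN
  rw [if_neg hκ]
  have e : (∑' k : K, (N : ℝ) • pr κ (w (κ - (N : ℤ) • k, k) 0)) = ∑' k : K, (N : ℝ) • pr κ (w (ph2 N κ k) 0) := rfl
  rw [e]
  by_cases h : κ ∈ Fb
  · rw [if_pos h, if_pos h]; abel
  · rw [if_neg h, if_neg h]; abel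

/-- the tail of the data is small in the critical norm, uniformly in `N` -/
lemma eN_tail {V0 : K → C3} {w : K × K → ℝ → C3} (hk0 : ∀ P : K × K, P.2 = 0 → ∀ s, w P s = 0)
    (hs : Summable fun P => ‖w P 0‖) (F : Finset (K × K)) (Fb : Finset K) (N : ℕ) :
    eN (DN V0 (fun P => w P 0) N - (res Fb V0 + dat N (cS F) (cw' F w)))
      ≤ (∑' κ, if κ ∈ Fb then 0 else ‖V0 κ‖ₑ)
        + 4 * ∑' P : K × K, if P ∈ F then 0 else ENNReal.ofReal (1 + nk P.1) * ‖w P 0‖ₑ := by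
  classical
  have hterm : ∀ κ : K, ‖(DN V0 (fun P => w P 0) N - (res Fb V0 + dat N (cS F) (cw' F w))) κ‖ₑ
      * ENNReal.ofReal (1 / nk κ) ≤ (if κ ∈ Fb then 0 else ‖V0 κ‖ₑ)
        + ∑' k : K, 4 * (if ph2 N κ k ∈ F then 0 else ENNReal.ofReal (1 + nk (ph2 N κ k).1) * ‖w (ph2 N κ k) 0‖ₑ) := by
    intro κ
    by_cases hκ : κ = 0
    · subst hκ
      rw [nk_zero]; simp
    have hκ1 := one_le_nk hκ
    have hle1 : ENNReal.ofReal (1 / nk κ) ≤ 1 := by
      rw [← ENNReal.ofReal_one]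
      apply ENNReal.ofReal_le_ofReal
      rw [div_le_one (by positivity)]; exact hκ1
    rw [DN_sub hk0 hs F Fb N hκ]
    refine (mul_le_mul' (enorm_add_le _ _) le_rfl).trans ?_
    rw [add_mul]
    refine add_le_add ?_ ?_
    · by_cases h : κ ∈ Fb
      · rw [if_pos h, if_pos h]; simp
      · rw [if_neg h, if_neg h]
        exact (mul_le_mul' le_rfl hle1).trans (by rw [mul_one])
    · refine (mul_le_mul' enorm_tsum_le_tsum_enorm le_rfl).trans ?_
      rw [← ENNReal.tsum_mul_right]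
      refine ENNReal.tsum_le_tsum fun k => ?_
      by_cases h : ph2 N κ k ∈ F
      · rw [if_pos h, if_pos h]; simp
      rw [if_neg h, if_neg h]
      by_cases hk : k = 0
      · rw [hk0 (ph2 N κ k) hk, pr_zero]; simp
      have e1 : ‖(N : ℝ) • pr κ (w (ph2 N κ k) 0)‖ₑ ≤ ENNReal.ofReal (N * (4 * ‖w (ph2 N κ k) 0‖)) := by
        rw [← ofReal_norm, norm_smul, Real.norm_of_nonneg (Nat.cast_nonneg N)]
        exact ENNReal.ofReal_le_ofReal (mul_le_mul_of_nonneg_left (PL.leray_norm _ _) (Nat.cast_nonneg N))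
      refine (mul_le_mul' e1 le_rfl).trans ?_
      rw [← ofReal_norm, show (4 : ℝ≥0∞) = ENNReal.ofReal 4 by norm_num, ← ENNReal.ofReal_mul (by positivity),
        ← ENNReal.ofReal_mul (by have := nk_nonneg (ph2 N κ k).1; positivity), ← ENNReal.ofReal_mul (by norm_num)]
      apply ENNReal.ofReal_le_ofReal
      have h2 := N_div_le (N := N) hκ hk
      have h3 : (N : ℝ) * (4 * ‖w (ph2 N κ k) 0‖) * (1 / nk κ) = 4 * ((N / nk κ) * ‖w (ph2 N κ k) 0‖) := by ring
      rw [h3]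
      exact mul_le_mul_of_nonneg_left (mul_le_mul_of_nonneg_right h2 (norm_nonneg _)) (by norm_num)
  unfold eN
  refine (ENNReal.tsum_le_tsum hterm).trans ?_
  rw [ENNReal.tsum_add]
  refine add_le_add le_rfl (le_of_eq ?_)
  set g : K × K → ℝ≥0∞ := fun P => if P ∈ F then 0 else ENNReal.ofReal (1 + nk P.1) * ‖w P 0‖ₑ with hg
  have e2 : ∑' κ : K, ∑' k : K, 4 * g (ph2 N κ k) = 4 * ∑' P, g P := by
    simp only [ENNReal.tsum_mul_left]
    congr 1
    rw [ENNReal.tsum_comm]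
    have e3 : ∀ k : K, ∑' κ : K, g (ph2 N κ k) = ∑' κ : K, g (κ, k) := by
      intro k
      exact (Equiv.subRight ((N : ℤ) • k)).tsum_eq fun κ => g (κ, k)
    simp only [e3]
    rw [ENNReal.tsum_comm]
    exact (ENNReal.tsum_prod (f := fun x y => g (x, y))).symm
  exact e2

end Pool.Agent.U162.GE
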