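import Pool.Agent.U162.GE.Fld

/-!
The two-scale theorem for smooth data
-/

open MeasureTheory Set Filter Topology
open scoped ENNReal NNReal ContDiff

namespace Pool.Agent.U162.GE

open Pool.Agent.H356R3.NS Pool.Agent.U162.TS Pool.Agent.U162.TS.EL Pool.Agent.U162.TS.VF Pool.Agent.U162.TS.Ph Pool.Agent.U162.PL

lemma HN_heat {ν : ℝ} {d d' : K → C3} (h0 : d 0 = 0) (h : ∀ k, k ≠ 0 → d k = d' k) {ρ : ℝ} (hρ : 0 ≤ ρ)
    (hh : heatSq ν d' ≤ ENNReal.ofReal (ρ ^ 2)) : HN (4 * Real.pi ^ 2 * ν) d ≤ ENNReal.ofReal ρ := by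
  have e : ∫⁻ t in Ioi (0 : ℝ), NW (Wa 0) (at' (mF (4 * Real.pi ^ 2 * ν) d) t) ^ (2 : ℝ) = heatSq ν d' := by
    unfold heatSq
    refine setLIntegral_congr_fun measurableSet_Ioi fun t ht => ?_
    rw [ENNReal.rpow_two, NW_Wa0]
    congr 1
    refine tsum_congr fun k => ?_
    show ‖mF (4 * Real.pi ^ 2 * ν) d k t‖ₑ = _
    rw [mF_enorm]
    by_cases hk : k = 0
    · rw [if_pos hk, hk, h0]; simp
    · rw [if_neg hk, h k hk, max_eq_left (le_of_lt ht)]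
      rfl
  unfold HN LN
  rw [e]
  refine (ENNReal.rpow_le_rpow hh (by norm_num)).trans (le_of_eq ?_)
  rw [ENNReal.ofReal_rpow_of_nonneg (by positivity) (by norm_num), ← Real.sqrt_eq_rpow, Real.sqrt_sq hρ]

variable {ν : ℝ} {V : R3 → R3 → R3} {W : R3 → ℝ → R3 → R3} {Q : R3 → ℝ → R3 → ℝ}

lemma push_plane' {c : ℝ} (hc : 0 < c) (hV : Profile V)
    (hG' : ∀ x, Ph.Glob ν (W x) (Q x)) {z : R3 → EE} (hsp : SPv z)
    (hz1 : ∀ x k t, z x k t = Real.exp (c / 2 * max t 0) • XF (W x) k (max t 0))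
    (hz2 : ∀ x, Phi hc (z x) = UV hc hV x) {n : K} (hn : Inv n V) {l : K} (hl : dz n l ≠ 0) :
    push W l = 0 := by
  have hzi : ∀ θ x, z (x + vz n θ) = z x := by
    intro θ x
    apply Phi_inj hc
    rw [hz2, hz2]
    have e : V (x + vz n θ) = V x := hn x θ
    apply lp.ext
    funext k
    ext1 t
    unfold UV
    rw [hE_apply, hE_apply, e]
  have hinv : ∀ j m θ x, stress W j m (x + vz n θ) = stress W j m x := by
    intro j m θ x
    have h1 := stress_QS' hc hG' hz1 j m (x + vz n θ)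
    rw [hzi, ← stress_QS' hc hG' hz1 j m x] at h1
    exact_mod_cast h1
  have h0 : ∀ j m, H459R3.NS.fr (stress W j m) l = 0 := fun j m =>
    fr_inv (stress_sp' hc hG' hsp hz1 j m) (hinv j m) hl
  funext i
  rw [push_fr]
  simp only [h0, mul_zero, Finset.sum_const_zero]
  unfold leray
  simp

/-- The two-scale theorem -/
theorem smooth_final (hν : 0 < ν) {a : R3 → R3} (ha : Field a) (hV : Profile V)
    (hF : ∀ x, (∃ w q, AdmissiblePeriodic ν (V x) w q) ∨ ∃ n : Fq, n ≠ 0 ∧ Inv n (V x)) :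
    ∃ (W : R3 → ℝ → R3 → R3) (Q : R3 → ℝ → R3 → ℝ) (g : R3 → R3),
      (∀ x, AdmissiblePeriodic ν (V x) (W x) (Q x)) ∧ Field g ∧
      (∀ l i, H356R3.NS.fc g l i = H356R3.NS.fc a l i + push W l i) ∧
      (((∃ v p, AdmissiblePeriodic ν g v p) ∨ ∃ n : Fq, n ≠ 0 ∧ Inv n a ∧ Inv n V) →
        ∃ v p, AdmissiblePeriodic ν g v p ∧ ∀ ε : ℝ, 0 < ε → ∃ δ : ℝ, 0 < δ ∧ ∃ N0 : ℕ, ∀ N : ℕ, N0 ≤ N →
          ∀ u₀ : R3 → R3, Field u₀ →
          heatSq ν (fun k i => H356R3.NS.fc u₀ k i - mix a V N k i) ≤ ENNReal.ofReal δ →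
          ∃ u q, AdmissiblePeriodic ν u₀ u q ∧ CloseAfter ε u v ∧ CloseTwoScale ε N u v W) := by
  have hF' : ∀ x, ∃ w q, AdmissiblePeriodic ν (V x) w q := by
    intro x
    rcases hF x with h | ⟨n, hn, hp⟩
    · exact h
    · exact planar_adm hν (hV.field x) hn hp
  choose W Q hW using hF'
  have hc : 0 < 4 * Real.pi ^ 2 * ν := by positivity
  have hG' : ∀ x, Ph.Glob ν (W x) (Q x) := fun x => glob_of_adm (hW x) (hV.field x).mean
  obtain ⟨z, hz1, hz2, hz3⟩ := family' hc hν rfl hV hW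
  have hFU := UV_fu hc hV
  have hsp := hFU.spv hz2
  obtain ⟨hfl, h0⟩ := hFU.flow hV.pg hz2 hz3
  have hD : Dta fun k i => H356R3.NS.fc a k i + push W k i := push_dta' hc hG' hsp hz1 ha.dta
  refine ⟨W, Q, fld fun k i => H356R3.NS.fc a k i + push W k i, hW, fld_field hD, fun l i => fld_fc hD l i, fun hS => ?_⟩
  have hv : ∃ v p, AdmissiblePeriodic ν (fld fun k i => H356R3.NS.fc a k i + push W k i) v p := by
    rcases hS with h | ⟨n, hn, hpa, hpb⟩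
    · exact h
    · refine adm_planar hν hn hD fun k hk => ?_
      have h1 : H356R3.NS.fc a k = 0 := hpa.fr ha hk
      have h2 := push_plane' hc hV hG' hsp hz1 hz2 hpb hk
      funext i
      simp [h1, h2]
  obtain ⟨v, p, hvp⟩ := hv
  refine ⟨v, p, hvp, fun ε hε => ?_⟩
  have hGv := glob_of_adm hvp (fld_field hD).mean
  have hX := hGv.flowC hν
  have hX0 : ∀ k, Ph.XF v k 0 = H356R3.NS.fc a k + Kick (WW (4 * Real.pi ^ 2 * ν) z) k := by
    intro k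
    funext i
    rw [Pi.add_apply, ← push_eq' hc hν hG' hsp hz1 hfl, ← fld_fc hD k i, ← fr_eq_fc]
    unfold Ph.XF Pool.Agent.Q63.Win.cof
    rw [max_self, hvp.initial]
  have hat : ∑' k, ‖H356R3.NS.fc a k‖ₑ ≠ ⊤ := by
    have e : ∑' k, ‖H356R3.NS.fc a k‖ₑ = ENNReal.ofReal (∑' k, ‖H356R3.NS.fc a k‖) := by
      rw [ENNReal.ofReal_tsum_of_nonneg (fun _ => norm_nonneg _) ha.dta.sum]
      simp
    rw [e]; exact ENNReal.ofReal_ne_top
  have hbt : ∑' P : K × K, ENNReal.ofReal (1 + nk P.1) * ‖WW (4 * Real.pi ^ 2 * ν) z P 0‖ₑ ≠ ⊤ := by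
    have hs := (hV.summ 1).mul_left 3
    have e : ∀ P : K × K, ENNReal.ofReal (1 + nk P.1) * ‖WW (4 * Real.pi ^ 2 * ν) z P 0‖ₑ
        ≤ ENNReal.ofReal (3 * ((1 + (H459R3.NS.N P.1 : ℝ)) ^ 1 * ‖bV V P‖)) := by
      intro P
      rw [h0, ← ofReal_norm, ← ENNReal.ofReal_mul (by have := nk_nonneg P.1; positivity)]
      apply ENNReal.ofReal_le_ofReal
      have h1 := nk_le_N P.1
      rw [pow_one, ← mul_assoc]
      refine mul_le_mul_of_nonneg_right ?_ (norm_nonneg _)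
      linarith
    refine ne_top_of_le_ne_top ?_ (ENNReal.tsum_le_tsum e)
    rw [← ENNReal.ofReal_tsum_of_nonneg (fun P => by positivity) hs]
    exact ENNReal.ofReal_ne_top
  have m3 : 0 < min ε 1 := lt_min hε one_pos
  obtain ⟨ρ, hρ, F, hFw, N0, hN0⟩ := two_scale_all hν hc rfl hX hfl hat hbt hX0 (half_pos m3) hε
  refine ⟨ρ ^ 2, by positivity, max N0 1, fun N hN u₀ hu₀ hclose => ?_⟩
  have hN1 := (le_max_left _ _).trans hN
  have hN2 := (le_max_right _ _).trans hN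
  have hHN : HN (4 * Real.pi ^ 2 * ν) ((fun k => H356R3.NS.fc u₀ k)
      - DN (fun k => H356R3.NS.fc a k) (fun P => WW (4 * Real.pi ^ 2 * ν) z P 0) N) ≤ ENNReal.ofReal ρ := by
    refine HN_heat ?_ (fun k hk => ?_) hρ.le hclose
    · rw [Pi.sub_apply, hu₀.dta.mean]
      unfold DN
      rw [if_pos rfl, sub_zero]
    · have e : (fun P => WW (4 * Real.pi ^ 2 * ν) z P 0) = bV V := funext h0
      rw [Pi.sub_apply, e, ← mix_eq hV a N hk]
      rfl
  obtain ⟨y, hy1, hy2, hy3⟩ := hN0 N hN1 (fun k => H356R3.NS.fc u₀ k) hu₀.dta hHN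
  have hadm := adm_of_sol' hc rfl hu₀.dta hy1
  have e0 : (fun (x : R3) i => (∑' k, H356R3.NS.fc u₀ k i * ch k x).re) = u₀ := hu₀.eq_fld
  rw [e0] at hadm
  refine ⟨_, _, hadm, ?_, ?_⟩
  · exact close_after hGv (XX_dom hc y) (fun t x i => rfl) hε hy2
  · exact close_two hGv hX.cf (XX_cf y) (XX_dom hc y) (fun t x i => rfl) hfl
      (fun x s y i hs => WW_series' hG' hsp hz1 hfl x s y i hs) hN2 hε hFw hy3

end Pool.Agent.U162.GE
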