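import Pool.Agent.U162.GE.St

/-!
Fields with given Fourier coefficients, and the Fourier coefficients of the data
-/

open MeasureTheory Set Filter Topology
open scoped ENNReal NNReal ContDiff

namespace Pool.Agent.U162.GE

open Pool.Agent.H356R3.NS Pool.Agent.U162.TS Pool.Agent.U162.TS.EL Pool.Agent.U162.TS.VF Pool.Agent.U162.TS.Ph Pool.Agent.U162.PL

/-- a weight bound -/
lemma nsumm {v : K → C3} (hv : Dta v) (n : ℕ) : Summable fun k => (1 + (H459R3.NS.N k : ℝ)) ^ n * ‖v k‖ := by
  obtain ⟨D, hD⟩ := hv.dec (n + 4)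
  have hD0 : 0 ≤ D := (mul_nonneg (pow_nonneg (nk_nonneg 0) _) (norm_nonneg _)).trans (hD 0)
  refine (summable_nk4.mul_left (2 ^ n * D)).of_nonneg_of_le (fun k => by positivity) fun k => ?_
  by_cases hk : k = 0
  · subst hk; rw [hv.mean]; simp
  · have hkp := nk_pos hk
    have h1 := one_le_nk hk
    rw [if_neg hk, mul_one_div, le_div_iff₀ (by positivity)]
    have h2 : (1 + (H459R3.NS.N k : ℝ)) ^ n ≤ 2 ^ n * nk k ^ n := by
      rw [← mul_pow]
      refine pow_le_pow_left₀ (by positivity) ?_ n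
      have := N_le_nk k
      linarith
    calc (1 + (H459R3.NS.N k : ℝ)) ^ n * ‖v k‖ * nk k ^ 4 ≤ 2 ^ n * nk k ^ n * ‖v k‖ * nk k ^ 4 := by gcongr
      _ = 2 ^ n * (nk k ^ (n + 4) * ‖v k‖) := by ring
      _ ≤ 2 ^ n * D := mul_le_mul_of_nonneg_left (hD k) (by positivity)

/-- the field with given coefficients -/
noncomputable def fld (v : K → C3) (x : R3) (i : Fin 3) : ℝ := (∑' k, v k i * ch k x).re

lemma fld_fc {v : K → C3} (hv : Dta v) (l : K) (i : Fin 3) : H356R3.NS.fc (fld v) l i = v l i := fc_series hv l i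

lemma fld_smooth {v : K → C3} (hv : Dta v) (i : Fin 3) : ContDiff ℝ ∞ fun x => fld v x i := by
  unfold fld
  have h : ContDiff ℝ ∞ fun x : R3 => ∑' k : K, H459R3.NS.ee k x • v k i :=
    series_smooth (ι := K) (l := fun k => k) (s := fun k => v k i) fun n =>
      (nsumm hv n).of_nonneg_of_le (fun k => by positivity) fun k =>
        mul_le_mul_of_nonneg_left (norm_le_pi_norm _ i) (by positivity)
  have e : (fun x : R3 => (∑' k, v k i * ch k x).re) = fun x => (∑' k : K, H459R3.NS.ee k x • v k i).re := by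
    funext x
    congr 1
    refine tsum_congr fun k => ?_
    rw [smul_eq_mul, ee_eq_ch, mul_comm]
  rw [e]
  exact Complex.reCLM.contDiff.comp h

lemma fld_per (v : K → C3) (x : R3) (j : Fin 3) : fld v (x + Pi.single j 1) = fld v x := by
  funext i
  unfold fld
  congr 1
  refine tsum_congr fun k => ?_
  rw [← ee_eq_ch, ← ee_eq_ch, H459R3.NS.ee_per k j x]

lemma fld_sp {v : K → C3} (hv : Dta v) (i : Fin 3) : H459R3.NS.SP fun x => fld v x i where
  smooth := fld_smooth hv i
  per := fun j x => by show fld v (x + Pi.single j 1) i = fld v x i; rw [fld_per]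

/-- smooth fields with given coefficients -/
theorem fld_field {v : K → C3} (hv : Dta v) : Field (fld v) where
  smooth := contDiff_pi.2 fun i => fld_smooth hv i
  periodic := fun x j => fld_per v x j
  divFree := fun x => by
    have hsp : H459R3.NS.SP fun x => ∑ i, H459R3.NS.pd i (fun y => fld v y i) x :=
      H459R3.NS.SP.sum fun i _ => (fld_sp hv i).pd i
    have h0 : H459R3.NS.fr (fun x => ∑ i, H459R3.NS.pd i (fun y => fld v y i) x) = fun _ => 0 := by
      funext k
      rw [H459R3.NS.fr_sum (s := Finset.univ) (f := fun i => H459R3.NS.pd i (fun y => fld v y i))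
        (fun i _ => (fld_sp hv i).pd i) k]
      have h4 : ∀ i, H459R3.NS.fr (H459R3.NS.pd i (fun y => fld v y i)) k
          = 2 * Real.pi * Complex.I * ((k i : ℂ) * v k i) := by
        intro i
        rw [H459R3.NS.fr_pd (fld_sp hv i), ← fld_fc hv k i, ← fr_eq_fc]
        unfold H459R3.NS.D
        ring
      simp only [h4]
      rw [← Finset.mul_sum]
      have := hv.div k
      unfold H356R3.NS.dt at this
      rw [this, mul_zero]
    have h1 := H459R3.NS.S_fr hsp x
    rw [h0] at h1
    have h2 : H459R3.NS.S (fun _ => 0) x = 0 := by unfold H459R3.NS.S; simp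
    rw [h2] at h1
    exact_mod_cast h1.symm
  mean := fun i => by
    have h := fld_fc hv 0 i
    rw [hv.mean, ← fr_eq_fc] at h
    exact Ph.fr_zero_int h

lemma Field.eq_fld {a : R3 → R3} (h : Field a) : fld (fun k => H356R3.NS.fc a k) = a := by
  funext x i
  exact h.series x i

lemma Inv.fr {a : R3 → R3} {n : K} (h : Inv n a) (ha : Field a) {l : K} (hl : dz n l ≠ 0) : H356R3.NS.fc a l = 0 := by
  funext i
  rw [ha.fc]
  exact fr_inv (ha.sp i) (fun θ x => by
    have := h x θ
    have e : (x + vz n θ) = (x + fun i => θ * (n i : ℝ)) := rfl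
    rw [e, this]) hl

/-- planar fields start global flows -/
theorem planar_adm {ν : ℝ} (hν : 0 < ν) {a : R3 → R3} (ha : Field a) {n : K} (hn : n ≠ 0) (h : Inv n a) :
    ∃ u p, AdmissiblePeriodic ν a u p := by
  obtain ⟨u, p, hu⟩ := adm_planar hν hn ha.dta fun k hk => h.fr ha hk
  have e : (fun (x : R3) i => (∑' k, H356R3.NS.fc a k i * ch k x).re) = a := ha.eq_fld
  rw [e] at hu
  exact ⟨u, p, hu⟩

/-! ### the data -/

variable {V : R3 → R3 → R3}

/-- the Leray projection as a linear map -/
noncomputable def prL (κ : K) : C3 →L[ℂ] C3 :=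
  LinearMap.toContinuousLinearMap
    { toFun := pr κ
      map_add' := fun v v' => pr_add κ v v'
      map_smul' := fun a v => pr_csmul κ a v }

lemma prL_apply (κ : K) (v : C3) : prL κ v = pr κ v := rfl

lemma bV_summ (hV : Profile V) : Summable fun P => ‖bV V P‖ := by
  have := hV.summ 0
  simpa using this

/-- the profile as a series -/
lemma V_series (hV : Profile V) (x y : R3) (i : Fin 3) :
    ((V x y i : ℝ) : ℂ) = ∑' P : K × K, bV V P i * (ch P.1 x * ch P.2 y) := by
  have hnc : ∀ (k : K) (x : R3), ‖ch k x‖ = 1 := fun k x => by rw [← ee_eq_ch, H459R3.NS.norm_ee]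
  have hS : Summable fun P : K × K => bV V P i * (ch P.1 x * ch P.2 y) := by
    refine Summable.of_norm_bounded (bV_summ hV) fun P => ?_
    rw [norm_mul, norm_mul, hnc, hnc, mul_one, mul_one]
    exact norm_le_pi_norm _ i
  have hS' : Summable fun P : K × K => bV V (P.2, P.1) i * (ch P.2 x * ch P.1 y) :=
    (Equiv.prodComm K K).summable_iff.2 hS
  have e0 : ∑' P : K × K, bV V P i * (ch P.1 x * ch P.2 y)
      = ∑' P : K × K, bV V (P.2, P.1) i * (ch P.2 x * ch P.1 y) :=
    ((Equiv.prodComm K K).tsum_eq fun P : K × K => bV V P i * (ch P.1 x * ch P.2 y)).symm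
  rw [e0, hS'.tsum_prod, ← H459R3.NS.S_fr ((hV.s2 i).fy x) y]
  unfold H459R3.NS.S
  refine tsum_congr fun k => ?_
  rw [← ((hV.s2 i).series k x).tsum_eq, ← tsum_mul_right]
  refine tsum_congr fun l => ?_
  rw [ee_eq_ch, ee_eq_ch]
  show bb (fun x y => V x y i) l k * ch l x * ch k y = bV V (l, k) i * (ch l x * ch k y)
  unfold bV
  ring

/-- the coefficients of the oscillating field -/
lemma osc_fc (hV : Profile V) (N : ℕ) (κ : K) :
    H356R3.NS.fc (fun x => V x ((N : ℝ) • x)) κ = ∑' k : K, bV V (ph2 N κ k) := by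
  have hs := bV_summ hV
  have hsk : Summable fun k : K => bV V (ph2 N κ k) := (hs.comp_injective (ph2_inj N κ)).of_norm
  funext i
  have hse : ((∑' k : K, bV V (ph2 N κ k)) i) = ∑' k : K, bV V (ph2 N κ k) i := by
    rw [tsum_apply hsk]
  rw [hse, ← fr_eq_fc]
  unfold H459R3.NS.fr H459R3.NS.fc
  have h1 : ∀ x : R3, H459R3.NS.ee (-κ) x * ((V x ((N : ℝ) • x) i : ℝ) : ℂ)
      = ∑' P : K × K, bV V P i * H459R3.NS.ee (kp N P - κ) x := by
    intro x
    rw [V_series hV, ← tsum_mul_left]
    refine tsum_congr fun P => ?_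
    rw [ch_kp, ← ch_eq, ← ee_eq_ch, sub_eq_add_neg, H459R3.NS.ee_add_left]
    ring
  simp only [h1]
  have hint : ∀ P : K × K, Integrable (fun x => bV V P i * H459R3.NS.ee (kp N P - κ) x)
      (volume.restrict H459R3.NS.cube) := fun P =>
    H459R3.NS.integrableOn_cube (continuous_const.mul (H459R3.NS.ee_continuous _))
  rw [← integral_tsum_of_summable_integral_norm hint]
  · have h2 : ∀ P : K × K, ∫ x in H459R3.NS.cube, bV V P i * H459R3.NS.ee (kp N P - κ) x
        = if kp N P = κ then bV V P i else 0 := by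
      intro P
      rw [integral_const_mul, H459R3.NS.integral_ee]
      by_cases h : kp N P = κ
      · rw [if_pos h, if_pos (sub_eq_zero.2 h), mul_one]
      · rw [if_neg h, if_neg (sub_ne_zero.2 h), mul_zero]
    simp only [h2]
    rw [← (ph2_inj N κ).tsum_eq (f := fun P : K × K => if kp N P = κ then bV V P i else 0)]
    · refine tsum_congr fun k => ?_
      rw [kp_ph2, if_pos rfl]
    · intro P hP
      rw [Function.mem_support] at hP
      have : kp N P = κ := by
        by_contra h
        exact hP (if_neg h)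
      exact ⟨P.2, by rw [← this, ph2_kp]⟩
  · have h3 : ∀ P : K × K, ∫ x in H459R3.NS.cube, ‖bV V P i * H459R3.NS.ee (kp N P - κ) x‖ = ‖bV V P i‖ := by
      intro P
      simp_rw [norm_mul, H459R3.NS.norm_ee, mul_one]
      simp [Measure.real, H459R3.NS.volume_cube]
    simp only [h3]
    exact hs.of_nonneg_of_le (fun _ => norm_nonneg _) fun P => norm_le_pi_norm _ i

/-- the data in the form of the theorem on the Fourier side -/
lemma mix_eq (hV : Profile V) (a : R3 → R3) (N : ℕ) {κ : K} (hκ : κ ≠ 0) :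
    mix a V N κ = DN (fun k => H356R3.NS.fc a k) (bV V) N κ := by
  have hs := bV_summ hV
  have hsk : Summable fun k : K => bV V (ph2 N κ k) := (hs.comp_injective (ph2_inj N κ)).of_norm
  unfold DN
  rw [if_neg hκ]
  have e1 : ∑' k : K, (N : ℝ) • pr κ (bV V (κ - (N : ℤ) • k, k)) = (N : ℝ) • pr κ (∑' k : K, bV V (ph2 N κ k)) := by
    rw [← prL_apply, (prL κ).map_tsum hsk, ← tsum_const_smul'']
    rfl
  rw [e1]
  funext i
  unfold mix
  rw [osc_fc hV, leray_eq, Pi.add_apply, Pi.smul_apply, Complex.real_smul]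
  push_cast
  rfl

end Pool.Agent.U162.GE
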