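import Pool.Agent.U162.GE.Smo

/-!
Families of flows with smooth data which depend on a periodic parameter
-/

open MeasureTheory Set Filter Topology
open scoped ENNReal NNReal ContDiff

namespace Pool.Agent.U162.GE

open Pool.Agent.H356R3.NS Pool.Agent.U162.TS Pool.Agent.U162.TS.EL Pool.Agent.U162.TS.VF Pool.Agent.U162.PL

/-- the coefficients of a real profile, divergence free and without mean in the second variable -/
structure PG (b : K × K → C3) : Prop where
  real : ∀ P i, b (-P) i = star (b P i)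
  div : ∀ P : K × K, dt P.2 (b P) = 0
  mean : ∀ P : K × K, P.2 = 0 → b P = 0

variable {c : ℝ} (hc : 0 < c)

/-- the heat flow of the data, as a function of the parameter -/
structure FU (b : K × K → C3) (U : R3 → EE) : Prop where
  sp : SPv U
  cf : ∀ l k t, cfv U l k t = hT hc k (b (l, k)) t

variable {hc}

lemma FU.spv {b : K × K → C3} {U : R3 → EE} (hU : FU hc b U) {z : R3 → EE} (hz : ∀ x, Phi hc (z x) = U x) : SPv z :=
  ⟨smooth_sol hc hU.sp.smooth hz, fun i x => by
    apply Phi_inj hc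
    rw [hz, hz, hU.sp.per i x]⟩

/-- the equation for the Fourier coefficients in both variables -/
lemma FU.cf_eq {b : K × K → C3} {U : R3 → EE} (hU : FU hc b U) {z : R3 → EE} (hz : ∀ x, Phi hc (z x) = U x)
    (l k : K) (t : ℝ) :
    cfv z l k t = hT hc k (b (l, k)) t
      + ∑' P : K × K, tkf c k (cfv z P.1 P.2) (cfv z (l - P.1) (k - P.2)) t := by
  have hsp := hU.spv hz
  have hsum := cfv_summ hsp
  have h0 : z = fun x => U x + BB hc (z x) (z x) := by
    funext x
    rw [← hz x]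
    unfold Phi
    abel
  have c1 : Continuous fun x => BB hc (z x) (z x) := by
    have h1 : Continuous fun x => BB hc (z x) := (BB hc).continuous.comp hsp.smooth.continuous
    exact h1.clm_apply hsp.smooth.continuous
  have h1 : cfv z l = cfv U l + cfv (fun x => BB hc (z x) (z x)) l := by
    nth_rewrite 1 [h0]
    unfold cfv
    rw [← integral_add (cfv_int hU.sp.smooth.continuous l) (cfv_int c1 l)]
    simp only [smul_add]
  have hBs : Summable fun l' => BB hc (cfv z l') (cfv z (l - l')) := by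
    refine Summable.of_norm_bounded (g := fun l' => 2 * C0 / c * (‖cfv z l'‖ * ‖cfv z (l - l')‖))
      ((cvS1 hsum hsum (fun _ => norm_nonneg _) (fun _ => norm_nonneg _) l).mul_left _) fun l' => ?_
    exact BB_norm hc _ _
  have h2 : ev k t (cfv z l) = ev k t (cfv U l)
      + ∑' l', ev k t (BB hc (cfv z l') (cfv z (l - l'))) := by
    rw [h1, map_add, cfv_BB hc hsp, (ev k t).map_tsum hBs]
  simp only [ev_apply] at h2
  rw [h2, hU.cf]
  congr 1
  simp only [BB_eval]
  rw [Summable.tsum_prod]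
  refine Summable.of_norm_bounded (g := fun P : K × K => 2 * C0 / c * (∑' l, ‖cfv z l‖) * ‖cfv z P.1 P.2‖)
    ((sumKK hsp).mul_left _) fun P => ?_
  refine (tkf_norm hc k _ _ t).trans ?_
  have hC := C0_pos
  have h3 : ‖cfv z (l - P.1) (k - P.2)‖ ≤ ∑' l, ‖cfv z l‖ :=
    (leE _ _).trans (hsum.le_tsum (l - P.1) fun _ _ => norm_nonneg _)
  calc 2 * C0 / c * (‖cfv z P.1 P.2‖ * ‖cfv z (l - P.1) (k - P.2)‖)
      ≤ 2 * C0 / c * (‖cfv z P.1 P.2‖ * ∑' l, ‖cfv z l‖) := by gcongr
    _ = _ := by ring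

lemma FU.k0 {b : K × K → C3} {U : R3 → EE} (hU : FU hc b U) (hb : PG b) {z : R3 → EE}
    (hz : ∀ x, Phi hc (z x) = U x) (l : K) (t : ℝ) : cfv z l 0 t = 0 := by
  rw [hU.cf_eq hz, hb.mean (l, 0) rfl, hT_apply, smul_zero, zero_add]
  have : ∀ P : K × K, tkf c 0 (cfv z P.1 P.2) (cfv z (l - P.1) (0 - P.2)) t = 0 := by
    intro P
    unfold tkf
    have e : prf c 0 (cfv z P.1 P.2) (cfv z (l - P.1) (0 - P.2)) = fun _ => 0 := by
      funext s; unfold prf; rw [bt0, smul_zero]
    rw [e, duf_zero]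
  simp only [this, tsum_zero]

/-- the Duhamel form for the coefficients in both variables -/
lemma FU.mild {b : K × K → C3} {U : R3 → EE} (hU : FU hc b U) {z : R3 → EE}
    (hz : ∀ x, Phi hc (z x) = U x) {R : K × K} (hR : R.2 ≠ 0) {s : ℝ} (hs : 0 ≤ s) :
    WW c z R s = Real.exp (-(c * H356R3.NS.sq R.2 * s)) •
      (b R + ∫ r in (0 : ℝ)..s, Real.exp (c * H356R3.NS.sq R.2 * r) • full (WW c z) R r) := by
  have hsp := hU.spv hz
  have hm : EL.mk c R.2 = c * H356R3.NS.sq R.2 - c / 2 := by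
    unfold EL.mk; rw [max_eq_right (one_le_sq hR)]
  unfold WW
  rw [max_eq_left hs, hU.cf_eq hz, tsum_tkf hc hsp R s, max_eq_left hs, hT_apply, max_eq_left hs, duf_eq]
  have e1 : ∫ r in (0 : ℝ)..s, Real.exp (EL.mk c R.2 * r) • FF c z R r
      = ∫ r in (0 : ℝ)..s, Real.exp (c * H356R3.NS.sq R.2 * r) • full (WW c z) R r := by
    refine intervalIntegral.integral_congr fun r hr => ?_
    rw [uIcc_of_le hs] at hr
    show Real.exp (EL.mk c R.2 * r) • FF c z R r = Real.exp (c * H356R3.NS.sq R.2 * r) • full (WW c z) R r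
    rw [FF_full hR hr.1, smul_smul, ← Real.exp_add]
    congr 2
    rw [hm]; ring
  rw [e1, ← smul_add, smul_smul, ← Real.exp_add]
  congr 2
  rw [hm]; ring

/-- solutions which depend on a parameter solve the cell problem -/
theorem FU.flow {b : K × K → C3} {U : R3 → EE} (hU : FU hc b U) (hb : PG b) {z : R3 → EE}
    (hz : ∀ x, Phi hc (z x) = U x) (hr : ∀ x k t i, z x (-k) t i = star (z x k t i)) :
    CellFlow c (WW c z) (c / 2) ∧ ∀ P, WW c z P 0 = b P := by
  have hsp := hU.spv hz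
  have hzc := hsp.smooth.continuous
  have h0 : ∀ P, WW c z P 0 = b P := by
    intro P
    by_cases hP : P.2 = 0
    · unfold WW
      rw [hP, hU.k0 hb hz, smul_zero, hb.mean P hP]
    · rw [hU.mild hz hP le_rfl]
      simp
  have hBP0 : ∑' P : K × K, ‖cfv z P.1 P.2‖ = ∑' l, ‖cfv z l‖ := by
    rw [(sumKK hsp).tsum_prod]
    have e : ∀ l : K, ∑' k : K, ‖cfv z l k‖ = ‖cfv z l‖ := fun l => (nE (cfv z l)).symm
    exact tsum_congr e
  generalize hB : ∑' l, ‖cfv z l‖ = B at hBP0
  have hBP : ∑' P : K × K, ‖cfv z P.1 P.2‖ = B := hBP0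
  have hB0 : 0 ≤ B := by rw [← hB]; exact tsum_nonneg fun _ => norm_nonneg _
  have hPB : ∀ P : K × K, ‖cfv z P.1 P.2‖ ≤ B := fun P => by
    rw [← hB]
    exact (leE _ _).trans ((cfv_summ hsp).le_tsum P.1 fun _ _ => norm_nonneg _)
  have hsn : ∀ s, Summable fun P => ‖WW c z P s‖ := fun s =>
    ((sumKK hsp).mul_left (Real.exp (-(c / 2 * max s 0)))).of_nonneg_of_le (fun _ => norm_nonneg _)
      fun P => WW_norm z P s
  refine ⟨⟨by positivity, fun P hP s => ?_, fun P => WW_cont z P, fun P => WW_full_cont hc hsp P, fun P s i => ?_,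
    fun P => ?_, fun P hP s hs => ?_, ⟨B, fun P s hs => ?_⟩, hsn, ?_⟩, h0⟩
  · unfold WW
    rw [hP, hU.k0 hb hz, smul_zero]
  · unfold WW
    rw [Pi.smul_apply, Pi.smul_apply, star_smul, star_trivial (Real.exp _)]
    congr 1
    exact cfv_real hzc hr P.1 P.2 _ i
  · rw [h0]; exact hb.div P
  · have h1 := duh_deriv (q := c * H356R3.NS.sq P.2) (b P) (WW_full_cont hc hsp P) s
    have h2 : WW c z P =ᶠ[𝓝 s] fun s => Real.exp (-(c * H356R3.NS.sq P.2 * s)) •
      (b P + ∫ r in (0 : ℝ)..s, Real.exp (c * H356R3.NS.sq P.2 * r) • full (WW c z) P r) := by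
      filter_upwards [lt_mem_nhds hs] with r hr'
      exact hU.mild hz hP (le_of_lt hr')
    refine (h1.congr_of_eventuallyEq h2).congr_deriv ?_
    rw [← hU.mild hz hP hs.le]
  · refine (WW_norm z P s).trans ?_
    rw [max_eq_left hs, mul_comm]
    exact mul_le_mul_of_nonneg_right (hPB P) (Real.exp_pos _).le
  · have h1 : ∀ s, ∑' P, ‖WW c z P s‖ₑ ≤ ENNReal.ofReal (B * Real.exp (-(c / 2 * max s 0))) := by
      intro s
      have e : ∑' P, ‖WW c z P s‖ₑ = ENNReal.ofReal (∑' P, ‖WW c z P s‖) := by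
        rw [ENNReal.ofReal_tsum_of_nonneg (fun _ => norm_nonneg _) (hsn s)]
        simp
      rw [e]
      apply ENNReal.ofReal_le_ofReal
      rw [← hBP, mul_comm, ← tsum_mul_left]
      exact (hsn s).tsum_le_tsum (fun P => WW_norm z P s) ((sumKK hsp).mul_left _)
    have h2 : ∫⁻ s in Ioi (0 : ℝ), (∑' P, ‖WW c z P s‖ₑ) * ∑' P, ‖WW c z P s‖ₑ
        ≤ ∫⁻ s in Ioi (0 : ℝ), ENNReal.ofReal (B ^ 2 * Real.exp (-(c * max s 0))) := by
      refine lintegral_mono fun s => ?_
      refine (mul_le_mul' (h1 s) (h1 s)).trans (le_of_eq ?_)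
      rw [← ENNReal.ofReal_mul (by positivity)]
      congr 1
      rw [show -(c * max s 0) = -(c / 2 * max s 0) + -(c / 2 * max s 0) by ring, Real.exp_add]
      ring
    refine ne_top_of_le_ne_top ?_ h2
    rw [lint_E (by positivity) (by positivity)]
    exact ENNReal.ofReal_ne_top

end Pool.Agent.U162.GE
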