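import Pool.Agent.U162.TS.Comb
import Pool.Agent.U162.PL.Ap2
import Pool.Agent.U162.PL.Fin

/-!
The critical norm of the data
-/

open MeasureTheory Set Filter Topology
open scoped ENNReal NNReal

namespace Pool.Agent.U162.GE

open Pool.Agent.H356R3.NS Pool.Agent.U162.TS

/-- the critical norm of the heat flow -/
noncomputable def HN (c : ℝ) (m : K → C3) : ℝ≥0∞ := LN (fun t => NW (Wa 0) (at' (mF c m) t))

/-- the norm with the weight `|k|⁻¹` -/
noncomputable def eN (m : K → C3) : ℝ≥0∞ := ∑' k, ‖m k‖ₑ * ENNReal.ofReal (1 / nk k)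

lemma mF_cf (c : ℝ) (m : K → C3) : CF (mF c m) := by
  intro k
  unfold mF
  fun_prop

lemma mF_add (c : ℝ) (m m' : K → C3) : mF c (m + m') = mF c m + mF c m' := by
  funext k t
  simp only [mF, Pi.add_apply, smul_add]

lemma mF_neg (c : ℝ) (m : K → C3) : mF c (-m) = -mF c m := by
  funext k t
  simp only [mF, Pi.neg_apply, smul_neg]

lemma HN_add (c : ℝ) (m m' : K → C3) : HN c (m + m') ≤ HN c m + HN c m' := by
  unfold HN
  rw [mF_add]
  exact (LN_mono fun t _ => NW_add_le _ (at' (mF c m) t) (at' (mF c m') t)).trans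
    (LN_add_le (NW_meas _ (mF_cf c m)) (NW_meas _ (mF_cf c m')))

lemma HN_neg (c : ℝ) (m : K → C3) : HN c (-m) = HN c m := by
  unfold HN
  rw [mF_neg]
  congr 1
  funext t
  exact NW_neg _ (at' (mF c m) t)

lemma HN_sub_comm (c : ℝ) (m m' : K → C3) : HN c (m - m') = HN c (m' - m) := by
  rw [← HN_neg, neg_sub]

lemma HN_tri (c : ℝ) (x y z : K → C3) : HN c (x - z) ≤ HN c (x - y) + HN c (y - z) := by
  have : x - z = (x - y) + (y - z) := by abel
  rw [this]; exact HN_add c _ _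

lemma mF_enorm (c : ℝ) (m : K → C3) (k : K) (t : ℝ) :
    ‖mF c m k t‖ₑ = ENNReal.ofReal (Real.exp (-(c * H356R3.NS.sq k * max t 0))) * ‖m k‖ₑ := by
  unfold mF
  rw [← ofReal_norm, norm_smul, Real.norm_of_nonneg (Real.exp_pos _).le, ENNReal.ofReal_mul (Real.exp_pos _).le,
    ofReal_norm]

/-- the bound by the norm with the weight `|k|⁻¹` -/
lemma HN_le {c : ℝ} (hc : 0 < c) {m : K → C3} (h0 : m 0 = 0) :
    HN c m ≤ ENNReal.ofReal (Real.sqrt (1 / (2 * c))) * eN m := by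
  have h1 : ∫⁻ t in Ioi (0 : ℝ), NW (Wa 0) (at' (mF c m) t) ^ (2 : ℝ)
      ≤ ENNReal.ofReal (1 / (2 * c)) * (eN m * eN m) := by
    have e1 : ∀ t, NW (Wa 0) (at' (mF c m) t) ^ (2 : ℝ)
        = ∑' p : K × K, ‖mF c m p.1 t‖ₑ * ‖mF c m p.2 t‖ₑ := by
      intro t
      rw [ENNReal.rpow_two, pow_two, NW_Wa0]
      exact (tsum_sq fun k => ‖mF c m k t‖ₑ).symm
    have hm0 : ∀ k, Measurable fun t => ‖mF c m k t‖ₑ := fun k => (mF_cf c m k).enorm.measurable
    have hm : ∀ p : K × K, Measurable fun t => ‖mF c m p.1 t‖ₑ * ‖mF c m p.2 t‖ₑ := fun p => (hm0 _).mul (hm0 _)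
    have e4 : ∫⁻ t in Ioi (0 : ℝ), ∑' p : K × K, ‖mF c m p.1 t‖ₑ * ‖mF c m p.2 t‖ₑ
        = ∑' p : K × K, ∫⁻ t in Ioi (0 : ℝ), ‖mF c m p.1 t‖ₑ * ‖mF c m p.2 t‖ₑ :=
      lintegral_tsum fun p => (hm p).aemeasurable
    simp only [e1]
    rw [e4]
    unfold eN
    rw [← tsum_sq, ← ENNReal.tsum_mul_left]
    refine ENNReal.tsum_le_tsum fun p => ?_
    by_cases hp1 : p.1 = 0
    · have : ∀ t, ‖mF c m p.1 t‖ₑ = 0 := fun t => by rw [mF_enorm, hp1, h0]; simp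
      simp [this]
    by_cases hp2 : p.2 = 0
    · have : ∀ t, ‖mF c m p.2 t‖ₑ = 0 := fun t => by rw [mF_enorm, hp2, h0]; simp
      simp [this]
    have a1 := nk_pos hp1
    have a2 := nk_pos hp2
    have e2 : ∀ t, ‖mF c m p.1 t‖ₑ * ‖mF c m p.2 t‖ₑ
        = ENNReal.ofReal (1 * Real.exp (-((c * H356R3.NS.sq p.1 + c * H356R3.NS.sq p.2) * max t 0))) * (‖m p.1‖ₑ * ‖m p.2‖ₑ) := by
      intro t
      rw [mF_enorm, mF_enorm, one_mul, show -((c * H356R3.NS.sq p.1 + c * H356R3.NS.sq p.2) * max t 0)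
        = -(c * H356R3.NS.sq p.1 * max t 0) + -(c * H356R3.NS.sq p.2 * max t 0) by ring, Real.exp_add,
        ENNReal.ofReal_mul (Real.exp_pos _).le]
      ring
    simp only [e2]
    have s1 := H356R3.NS.sq_pos hp1
    have s2 := H356R3.NS.sq_pos hp2
    rw [lintegral_mul_const _ (by fun_prop), lint_E (by positivity) zero_le_one]
    have e3 : ENNReal.ofReal (1 / (c * H356R3.NS.sq p.1 + c * H356R3.NS.sq p.2))
        ≤ ENNReal.ofReal (1 / (2 * c)) * (ENNReal.ofReal (1 / nk p.1) * ENNReal.ofReal (1 / nk p.2)) := by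
      rw [← ENNReal.ofReal_mul (by positivity), ← ENNReal.ofReal_mul (by positivity)]
      apply ENNReal.ofReal_le_ofReal
      rw [← nk_mul_self, ← nk_mul_self, one_div_mul_one_div_rev, one_div_mul_one_div_rev]
      apply one_div_le_one_div_of_le (by positivity)
      nlinarith [sq_nonneg (nk p.1 - nk p.2)]
    calc _ ≤ ENNReal.ofReal (1 / (2 * c)) * (ENNReal.ofReal (1 / nk p.1) * ENNReal.ofReal (1 / nk p.2))
          * (‖m p.1‖ₑ * ‖m p.2‖ₑ) := mul_le_mul' e3 le_rfl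
      _ = _ := by ring
  unfold HN LN
  refine (ENNReal.rpow_le_rpow h1 (by norm_num)).trans (le_of_eq ?_)
  rw [ENNReal.mul_rpow_of_nonneg _ _ (by norm_num), ENNReal.ofReal_rpow_of_nonneg (by positivity) (by norm_num),
    ← Real.sqrt_eq_rpow, ← pow_two, ← ENNReal.rpow_two, ← ENNReal.rpow_mul]
  norm_num

/-- tails of convergent sums -/
lemma tail0 {Γ : Type*} [DecidableEq Γ] {f : Γ → ℝ≥0∞} (h : ∑' P, f P ≠ ⊤) {ε : ℝ≥0∞} (hε : 0 < ε) :
    ∃ F0 : Finset Γ, ∀ F : Finset Γ, F0 ⊆ F → ∑' P, (if P ∈ F then 0 else f P) ≤ ε := by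
  have h1 := ENNReal.tendsto_tsum_compl_atTop_zero h
  have h2 := h1.eventually (ge_mem_nhds hε)
  rw [Filter.eventually_atTop] at h2
  obtain ⟨F0, hF0⟩ := h2
  refine ⟨F0, fun F hF => le_trans (le_of_eq ?_) (hF0 F hF)⟩
  have h3 := tsum_subtype {x : Γ | x ∉ F} f
  have h4 : ∑' x : {x // x ∉ F}, f x = ∑' x : ↑{x : Γ | x ∉ F}, f x := rfl
  rw [h4, h3]
  refine tsum_congr fun P => ?_
  by_cases hP : P ∈ F
  · simp [hP]
  · simp [hP]

end Pool.Agent.U162.GE
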