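import Pool.Agent.U162.GE.Tsg

/-!
General data by approximation with trigonometric polynomials
-/

open MeasureTheory Set Filter Topology
open scoped ENNReal NNReal ContDiff

namespace Pool.Agent.U162.GE

open Pool.Agent.H356R3.NS Pool.Agent.U162.TS Pool.Agent.U162.TS.EL Pool.Agent.U162.PL

/-- boxes of frequencies -/
noncomputable def box (n : ℕ) : Finset K := Finset.Icc (fun _ => -(n : ℤ)) fun _ => (n : ℤ)

lemma mem_box {n : ℕ} {k : K} : k ∈ box n ↔ ∀ i, -(n : ℤ) ≤ k i ∧ k i ≤ n := by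
  unfold box
  rw [Finset.mem_Icc, Pi.le_def, Pi.le_def]
  exact ⟨fun h i => ⟨h.1 i, h.2 i⟩, fun h => ⟨fun i => (h i).1, fun i => (h i).2⟩⟩

lemma box_neg {n : ℕ} {k : K} : -k ∈ box n ↔ k ∈ box n := by
  rw [mem_box, mem_box]
  refine forall_congr' fun i => ?_
  rw [Pi.neg_apply]
  constructor
  · rintro ⟨h1, h2⟩; constructor <;> linarith
  · rintro ⟨h1, h2⟩; constructor <;> linarith

lemma box_mono : Monotone box := by
  intro m n h k hk
  rw [mem_box] at hk ⊢
  intro i
  have h' : (m : ℤ) ≤ n := by exact_mod_cast h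
  have := hk i
  constructor <;> linarith [this.1, this.2]

lemma box_tendsto : Tendsto box atTop atTop := by
  refine tendsto_atTop_finset_of_monotone box_mono fun k => ?_
  refine ⟨∑ i, (k i).natAbs, ?_⟩
  rw [mem_box]
  intro i
  have h1 : (k i).natAbs ≤ ∑ i, (k i).natAbs :=
    Finset.single_le_sum (f := fun i => (k i).natAbs) (fun _ _ => Nat.zero_le _) (Finset.mem_univ i)
  have h2 : ((k i).natAbs : ℤ) ≤ ((∑ i, (k i).natAbs : ℕ) : ℤ) := by exact_mod_cast h1
  rw [Int.natCast_natAbs] at h2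
  exact ⟨by linarith [neg_abs_le (k i)], (le_abs_self _).trans h2⟩

lemma res_norm (F : Finset K) (v : K → C3) (k : K) : ‖res F v k‖ ≤ ‖v k‖ := by
  unfold res
  split_ifs
  · exact le_rfl
  · rw [norm_zero]; exact norm_nonneg _

lemma res_dta {v : K → C3} (hv : Dta v) {F : Finset K} (hF : ∀ k, -k ∈ F ↔ k ∈ F) : Dta (res F v) where
  sum := hv.sum.of_nonneg_of_le (fun _ => norm_nonneg _) fun k => res_norm F v k
  mean := by unfold res; rw [hv.mean, ite_self]
  real := fun k i => by
    unfold res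
    by_cases h : k ∈ F
    · rw [if_pos h, if_pos ((hF k).2 h), hv.real]
    · rw [if_neg h, if_neg fun h' => h ((hF k).1 h')]; simp
  div := fun k => by
    unfold res
    split_ifs
    · exact hv.div k
    · simp [dt]
  dec := fun j => by
    obtain ⟨D, hD⟩ := hv.dec j
    exact ⟨D, fun k => (mul_le_mul_of_nonneg_left (res_norm F v k) (pow_nonneg (nk_nonneg k) j)).trans (hD k)⟩

lemma fr_series {y : K → ℂ} (hs : Summable fun k => ‖y k‖) (hr : ∀ k, y (-k) = star (y k)) (l : K) :
    H459R3.NS.fr (fun x => (∑' k, y k * ex k x).re) l = y l := by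
  have hs' : Summable y := hs.of_norm
  have h1 : ∀ x, (((∑' k, y k * ex k x).re : ℝ) : ℂ) = H459R3.NS.S y x := by
    intro x
    have e : H459R3.NS.S y x = ∑' k, y k * ex k x := by
      unfold H459R3.NS.S
      exact tsum_congr fun k => by rw [ee_eq_ch, ch_eq]
    rw [e]
    refine Complex.conj_eq_iff_re.1 ?_
    rw [Complex.conj_tsum, ← (Equiv.neg K).tsum_eq]
    refine tsum_congr fun k => ?_
    rw [map_mul, Equiv.neg_apply, hr]
    have h2 := ch_neg_star k x
    rw [ch_eq, ch_eq] at h2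
    rw [← h2]
    simp [Complex.star_def]
  unfold H459R3.NS.fr H459R3.NS.fc
  have h2 := H459R3.NS.integral_ee_S (-l) hs'
  rw [neg_neg] at h2
  rw [← h2]
  refine integral_congr_ae (Filter.Eventually.of_forall fun x => ?_)
  simp only
  rw [h1]

/-- solutions of the library as elements of the Banach space -/
theorem mem_of_Sol {ν c : ℝ} (hν : 0 < ν) (hc : 0 < c) (hcν : c = 4 * Real.pi ^ 2 * ν) {a : ℝ} (ha : 0 < a)
    {v : K → C3} (hv : Dta v) {u : Fam} (h : Sol c a v u) :
    ∃ z : EE, Phi hc z = hE hc v hv.sum ∧ XX c z = u := by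
  have h' : Sol (4 * Real.pi ^ 2 * ν) a v u := by rw [← hcν]; exact h
  have hphys := sol_physical ha hv.div h' (0 : E3)
  have hd : Dom u := h'.dom' ha
  have hfr : ∀ t k i, H459R3.NS.fr (fun x : E3 => (0 : E3) i + (GS 0 (cf' u i) t x).re) k = u k t i := by
    intro t k i
    have e : (fun x : E3 => (0 : E3) i + (GS 0 (cf' u i) t x).re) = fun x => (∑' k, u k t i * ex k x).re := by
      funext x
      unfold GS SF cf'
      simp
    rw [e]
    refine fr_series ?_ (fun k => h.sym t k i) k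
    exact (show Summable fun k => ‖u k t‖ from hd.sn t).of_nonneg_of_le (fun _ => norm_nonneg _)
      fun k => norm_le_pi_norm (u k t) i
  have hm : ∀ i, ∫ x in Icc (0 : R3) 1, (fun (x : E3) i => (0 : E3) i + (∑' k, v k i * ex k x).re) x i = 0 := by
    intro i
    apply Ph.fr_zero_int
    have e : (fun x : E3 => (fun (x : E3) i => (0 : E3) i + (∑' k, v k i * ex k x).re) x i)
        = fun x => (∑' k, v k i * ex k x).re := by
      funext x; simp
    rw [e, fr_series (hv.sum.of_nonneg_of_le (fun _ => norm_nonneg _) fun k => norm_le_pi_norm (v k) i)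
      (fun k => hv.real k i), hv.mean]
    rfl
  have hG := Ph.glob_of_adm hphys hm
  obtain ⟨z, hz1, hz2⟩ := mem_of_glob hc hν hcν hG
  have hmx : ∀ k t, u k t = u k (max t 0) := by
    intro k t
    rw [h.eq k t, h.eq k (max t 0), max_eq_left (le_max_right t 0)]
    congr 1
    unfold Duh
    rw [max_eq_left (le_max_right t 0)]
  have hXF : ∀ k t, Ph.XF (fun t x i => (0 : E3) i + (GS 0 (cf' u i) t x).re) k t = u k t := by
    intro k t
    funext i
    unfold Ph.XF Pool.Agent.Q63.Win.cof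
    rw [hfr, ← hmx]
  refine ⟨z, ?_, ?_⟩
  · rw [hz2]
    apply lp.ext
    funext k
    ext1 t
    rw [hE_apply, hE_apply, hXF, h.eq k 0]
    congr 2
    unfold Duh
    simp
  · funext k t
    unfold XX
    rw [hz1, max_eq_left (le_max_right t 0), hXF, smul_smul, ← Real.exp_add, neg_add_cancel, Real.exp_zero, one_smul,
      ← hmx]

variable {c : ℝ} (hc : 0 < c)

lemma hE_res {v : K → C3} (hv : Summable fun k => ‖v k‖) (F : Finset K) (hv' : Summable fun k => ‖res F v k‖) :
    hE hc (res F v) hv' = ∑ k ∈ F, lp.single 1 k (hE hc v hv k) := by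
  classical
  apply lp.ext
  funext k
  have h1 : (∑ l ∈ F, lp.single (E := fun _ : K => TB) 1 l (hE hc v hv l)) k
      = ∑ l ∈ F, (lp.single (E := fun _ : K => TB) 1 l (hE hc v hv l)) k := by
    rw [lp.coeFn_sum, Finset.sum_apply]
  rw [h1]
  have h2 : ∀ l ∈ F, (lp.single (E := fun _ : K => TB) 1 l (hE hc v hv l)) k = if l = k then hE hc v hv k else 0 := by
    intro l _
    rw [lp.single_apply]
    by_cases h : k = l
    · subst h; simp
    · rw [Pi.single_eq_of_ne h, if_neg (Ne.symm h)]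
  rw [Finset.sum_congr rfl h2, Finset.sum_ite_eq' F k]
  ext1 t
  rw [hE_apply]
  unfold res
  split_ifs
  · rw [hE_apply]
  · rw [hT_apply, smul_zero]; rfl

lemma hE_tendsto {v : K → C3} (hv : Dta v) :
    Tendsto (fun n => hE hc (res (box n) v) (res_dta hv fun _ => box_neg).sum) atTop (𝓝 (hE hc v hv.sum)) := by
  have h1 := lp.hasSum_single (p := 1) ENNReal.one_ne_top (hE hc v hv.sum)
  unfold HasSum at h1
  rw [SummationFilter.unconditional_filter] at h1
  have h2 : Tendsto (fun n => ∑ k ∈ box n, lp.single (E := fun _ : K => TB) 1 k (hE hc v hv.sum k)) atTop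
      (𝓝 (hE hc v hv.sum)) := h1.comp box_tendsto
  refine h2.congr fun n => ?_
  rw [hE_res hc hv.sum]

lemma yv_res {v : K → C3} (hv : Dta v) {F : Finset K} : yv (res F v) ≤ yv v := by
  unfold yv
  refine Finset.sum_le_sum fun i _ => ?_
  have hle : ∀ k, ‖((H356R3.NS.sq k : ℝ) : ℂ) * res F v k i‖ ^ 2 ≤ ‖((H356R3.NS.sq k : ℝ) : ℂ) * v k i‖ ^ 2 := by
    intro k
    refine pow_le_pow_left₀ (norm_nonneg _) ?_ 2
    rw [norm_mul, norm_mul]
    refine mul_le_mul_of_nonneg_left ?_ (norm_nonneg _)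
    unfold res
    split_ifs
    · exact le_rfl
    · simp
  have hs : Summable fun k => ‖((H356R3.NS.sq k : ℝ) : ℂ) * v k i‖ ^ 2 := by
    obtain ⟨D, hD⟩ := hv.dec 6
    have hD0 : 0 ≤ D := (mul_nonneg (pow_nonneg (nk_nonneg 0) _) (norm_nonneg _)).trans (hD 0)
    have h1 : Summable fun k => nk k ^ 2 * ‖v k‖ := by
      refine (summable_nk4.mul_left D).of_nonneg_of_le (fun k => mul_nonneg (pow_nonneg (nk_nonneg k) _) (norm_nonneg _))
        fun k => ?_
      by_cases hk : k = 0
      · subst hk; rw [hv.mean]; simp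
      · have hkp := nk_pos hk
        rw [if_neg hk, mul_one_div, le_div_iff₀ (by positivity)]
        calc nk k ^ 2 * ‖v k‖ * nk k ^ 4 = nk k ^ 6 * ‖v k‖ := by ring
          _ ≤ D := hD k
    refine (summ_sq h1 fun k => mul_nonneg (pow_nonneg (nk_nonneg k) _) (norm_nonneg _)).of_nonneg_of_le
      (fun k => sq_nonneg _) fun k => ?_
    refine pow_le_pow_left₀ (norm_nonneg _) ?_ 2
    rw [norm_mul, Complex.norm_real, Real.norm_of_nonneg (sq_nonneg' k), ← H356R3.NS.nk_sq]
    exact mul_le_mul_of_nonneg_left (norm_le_pi_norm _ i) (by positivity)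
  exact (hs.of_nonneg_of_le (fun k => sq_nonneg _) hle).tsum_le_tsum hle hs

/-- limits of solutions with truncated data -/
theorem lim_sol {v : K → C3} (hv : Dta v) {M : ℝ} (hM : 0 ≤ M) {n0 : ℕ} {zn : ℕ → EE}
    (h1 : ∀ n, n0 ≤ n → Phi hc (zn n) = hE hc (res (box n) v) (res_dta hv fun _ => box_neg).sum)
    (h2 : ∀ n, n0 ≤ n → LN (fun t => NW (Wa 0) (at' (XX c (zn n)) t)) ≤ ENNReal.ofReal M) :
    ∃ z : EE, Phi hc z = hE hc v hv.sum ∧ Tendsto zn atTop (𝓝 z) := by
  obtain ⟨D, hD⟩ := hv.DD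
  have hC := C0_pos
  set R := Ad c (Gg c M v) D 4 * s4 with hR
  have y0 : ∀ v : K → C3, 0 ≤ yv v := fun v => Finset.sum_nonneg fun _ _ => tsum_nonneg fun _ => sq_nonneg _
  have hRn : ∀ n, n0 ≤ n → ‖zn n‖ ≤ R := by
    intro n hn
    refine norm_le_of_G hc (h1 n hn) (res_dta hv fun _ => box_neg).mean (fun t => ?_)
      fun j k => (mul_le_mul_of_nonneg_left (res_norm _ v k) (pow_nonneg (nk_nonneg k) j)).trans (hD j k)
    refine (z_G_crit hc (res_dta hv fun _ => box_neg) (h1 n hn) hM (h2 n hn) t).trans ?_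
    unfold Gg
    refine mul_le_mul_of_nonneg_left (Real.sqrt_le_sqrt ?_) (Real.sqrt_nonneg _)
    exact mul_le_mul_of_nonneg_right (yv_res hv) (Real.exp_pos _).le
  have hR0 : 0 ≤ R := (norm_nonneg _).trans (hRn n0 le_rfl)
  obtain ⟨L, hL0, hL⟩ := Phi_lip hc hR0
  have hT := hE_tendsto hc hv
  have hcau : CauchySeq zn := by
    have hrc := hT.cauchySeq
    rw [Metric.cauchySeq_iff] at hrc ⊢
    intro ε hε
    obtain ⟨N, hN⟩ := hrc (ε / (L + 1)) (by positivity)
    refine ⟨max N n0, fun m hm n hn => ?_⟩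
    have hm1 := (le_max_left _ _).trans hm
    have hm2 := (le_max_right _ _).trans hm
    have hn1 := (le_max_left _ _).trans hn
    have hn2 := (le_max_right _ _).trans hn
    have h3 := hN m hm1 n hn1
    rw [dist_eq_norm] at h3 ⊢
    have h4 := hL (zn m) (zn n) (hRn m hm2) (hRn n hn2)
    rw [h1 m hm2, h1 n hn2] at h4
    rw [lt_div_iff₀ (by positivity)] at h3
    have h5 := norm_nonneg (hE hc (res (box m) v) (res_dta hv fun _ => box_neg).sum
      - hE hc (res (box n) v) (res_dta hv fun _ => box_neg).sum)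
    nlinarith
  obtain ⟨z, hz⟩ := cauchySeq_tendsto_of_complete hcau
  refine ⟨z, ?_, hz⟩
  have hcont : Continuous (Phi hc) := (Phi_contDiff hc).continuous
  have h3 : Tendsto (fun n => Phi hc (zn n)) atTop (𝓝 (Phi hc z)) := (hcont.tendsto z).comp hz
  refine tendsto_nhds_unique h3 (hT.congr' ?_)
  filter_upwards [Filter.eventually_ge_atTop n0] with n hn
  rw [h1 n hn]

include hc in
lemma XX_close (z z' : EE) : LN (fun t => NW (Wa 0) (at' (XX c z - XX c z') t))
    ≤ ENNReal.ofReal (‖z - z'‖ * Real.sqrt (1 / (2 * (c / 2)))) := by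
  rw [← LN_E (by positivity : 0 < c / 2) (norm_nonneg _)]
  refine LN_mono fun t _ => ?_
  rw [NW_Wa0]
  have hs := z_summ (z - z') (max t 0)
  have e : ∀ k, ‖at' (XX c z - XX c z') t k‖ₑ
      = ENNReal.ofReal (Real.exp (-(c / 2 * max t 0)) * ‖(z - z') k (max t 0)‖) := by
    intro k
    show ‖XX c z k t - XX c z' k t‖ₑ = _
    unfold XX
    rw [← smul_sub, ← ofReal_norm, norm_smul, Real.norm_of_nonneg (Real.exp_pos _).le]
    rfl
  simp only [e]
  rw [← ENNReal.ofReal_tsum_of_nonneg (fun k => mul_nonneg (Real.exp_pos _).le (norm_nonneg _)) (hs.mul_left _),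
    tsum_mul_left]
  apply ENNReal.ofReal_le_ofReal
  rw [mul_comm]
  exact mul_le_mul_of_nonneg_right (z_G (z - z') _) (Real.exp_pos _).le

end Pool.Agent.U162.GE
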