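import Pool.Agent.U162.GE.Bik

/-!
Smoothness of Fourier series with values in a Banach space
-/

open MeasureTheory Set Filter Topology
open scoped ENNReal NNReal ContDiff

namespace Pool.Agent.U162.GE

open Pool.Agent.H356R3.NS Pool.Agent.U162.TS Pool.Agent.U162.TS.EL Pool.Agent.U162.TS.VF Pool.Agent.U162.PL

section
variable {F : Type*} [NormedAddCommGroup F] [NormedSpace ℝ F] [NormedSpace ℂ F] [IsScalarTower ℝ ℂ F]

/-- the phase -/
noncomputable def Al (l : K) : R3 →L[ℝ] ℝ :=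
  ∑ i, (2 * Real.pi * (l i : ℝ)) • (ContinuousLinearMap.proj (R := ℝ) (φ := fun _ : Fin 3 => ℝ) i)

lemma Al_apply (l : K) (x : R3) : Al l x = ∑ i, 2 * Real.pi * (l i : ℝ) * x i := by
  unfold Al
  simp

lemma ee_Al (l : K) (x : R3) : H459R3.NS.ee l x = Complex.exp ((Al l x : ℝ) * Complex.I) := by
  unfold H459R3.NS.ee H459R3.NS.ph
  congr 1
  rw [Al_apply]
  push_cast
  rw [Finset.mul_sum, Finset.sum_mul]
  exact Finset.sum_congr rfl fun i _ => by ring

lemma Al_norm (l : K) : ‖Al l‖ ≤ 6 * Real.pi * (1 + (H459R3.NS.N l : ℝ)) := by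
  refine ContinuousLinearMap.opNorm_le_bound _ (by positivity) fun x => ?_
  rw [Al_apply]
  refine (norm_sum_le _ _).trans ?_
  have h : ∀ i, ‖2 * Real.pi * (l i : ℝ) * x i‖ ≤ 2 * Real.pi * (1 + (H459R3.NS.N l : ℝ)) * ‖x‖ := by
    intro i
    have h1 : |(l i : ℝ)| ≤ H459R3.NS.N l := by
      have := H459R3.NS.abs_le_N l i
      rwa [Complex.norm_intCast] at this
    have h2 : |x i| ≤ ‖x‖ := norm_le_pi_norm x i
    rw [norm_mul, norm_mul, norm_mul, Real.norm_eq_abs, Real.norm_eq_abs, Real.norm_eq_abs, Real.norm_eq_abs,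
      abs_of_pos Real.pi_pos, abs_two]
    have h3 : |(l i : ℝ)| ≤ 1 + (H459R3.NS.N l : ℝ) := by linarith
    gcongr
  refine (Finset.sum_le_sum fun i _ => h i).trans (le_of_eq ?_)
  simp only [Finset.sum_const, Finset.card_univ, Fintype.card_fin, nsmul_eq_mul]
  push_cast; ring

/-- the exponential in one variable -/
noncomputable def e1 (v : F) (s : ℝ) : F := Complex.exp (s * Complex.I) • v

lemma e1_deriv (v : F) (s : ℝ) : HasDerivAt (e1 v) (e1 (Complex.I • v) s) s := by
  have h1 : HasDerivAt (fun s : ℝ => Complex.exp (s * Complex.I)) (Complex.exp (s * Complex.I) * (1 * Complex.I)) s := by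
    have h0 : HasDerivAt (fun s : ℝ => ((s : ℝ) : ℂ) * Complex.I) (1 * Complex.I) s :=
      (Complex.ofRealCLM.hasDerivAt).mul_const _
    exact h0.cexp
  have h2 := h1.smul_const v
  refine h2.congr_deriv ?_
  unfold e1
  rw [smul_smul]; simp

lemma e1_smooth (v : F) : ContDiff ℝ ∞ (e1 v) := by
  unfold e1
  have h : ContDiff ℝ ∞ fun s : ℝ => Complex.exp (s * Complex.I) := by
    have h0 : ContDiff ℝ ∞ fun s : ℝ => ((s : ℝ) : ℂ) * Complex.I :=
      (Complex.ofRealCLM.contDiff).mul contDiff_const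
    exact h0.cexp
  exact h.smul contDiff_const

lemma e1_iter (v : F) (n : ℕ) : iteratedDeriv n (e1 v) = e1 (Complex.I ^ n • v) := by
  induction n generalizing v with
  | zero => simp
  | succ n ih =>
    rw [iteratedDeriv_succ']
    have h : deriv (e1 v) = e1 (Complex.I • v) := funext fun s => (e1_deriv v s).deriv
    rw [h, ih, smul_smul, pow_succ]

lemma e1_norm (v : F) (s : ℝ) : ‖e1 v s‖ = ‖v‖ := by
  unfold e1
  rw [norm_smul, Complex.norm_exp_ofReal_mul_I, one_mul]

lemma ee_smul_eq (l : K) (v : F) : (fun x : R3 => H459R3.NS.ee l x • v) = e1 v ∘ Al l := by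
  funext x
  simp only [Function.comp_apply]
  unfold e1
  rw [ee_Al]

lemma ee_iter (l : K) (v : F) (n : ℕ) (x : R3) :
    ‖iteratedFDeriv ℝ n (fun x : R3 => H459R3.NS.ee l x • v) x‖ ≤ (6 * Real.pi * (1 + (H459R3.NS.N l : ℝ))) ^ n * ‖v‖ := by
  rw [ee_smul_eq, ContinuousLinearMap.iteratedFDeriv_comp_right (Al l) (e1_smooth v) x (i := n) (by exact_mod_cast le_top)]
  refine (ContinuousMultilinearMap.norm_compContinuousLinearMap_le _ _).trans ?_
  rw [norm_iteratedFDeriv_eq_norm_iteratedDeriv, e1_iter, e1_norm, norm_smul, norm_pow, Complex.norm_I, one_pow, one_mul,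
    Finset.prod_const, Finset.card_univ, Fintype.card_fin, mul_comm]
  exact mul_le_mul_of_nonneg_right (pow_le_pow_left₀ (norm_nonneg _) (Al_norm l) n) (norm_nonneg _)

/-- smoothness of the series -/
theorem series_smooth [CompleteSpace F] {ι : Type*} {l : ι → K} {s : ι → F}
    (h : ∀ n : ℕ, Summable fun P => (1 + (H459R3.NS.N (l P) : ℝ)) ^ n * ‖s P‖) :
    ContDiff ℝ ∞ fun x : R3 => ∑' P, H459R3.NS.ee (l P) x • s P := by
  refine contDiff_tsum (v := fun n P => (6 * Real.pi) ^ n * ((1 + (H459R3.NS.N (l P) : ℝ)) ^ n * ‖s P‖))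
    (fun P => (H459R3.NS.ee_contDiff _).smul contDiff_const) (fun n _ => (h n).mul_left _) fun n P x _ => ?_
  refine (ee_iter (l P) (s P) n x).trans (le_of_eq ?_)
  rw [mul_pow]; ring

end

end Pool.Agent.U162.GE
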