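import Pool.Agent.U162.GE.Vp

/-!
The stress of the fast flows, for smooth profiles
-/

open MeasureTheory Set Filter Topology
open scoped ENNReal NNReal ContDiff

namespace Pool.Agent.U162.GE

open Pool.Agent.H356R3.NS Pool.Agent.U162.TS Pool.Agent.U162.TS.EL Pool.Agent.U162.TS.VF Pool.Agent.U162.TS.Ph Pool.Agent.U162.PL

variable {ν : ℝ} {V : R3 → R3 → R3} {W : R3 → ℝ → R3 → R3} {Q : R3 → ℝ → R3 → ℝ}

/-- the family of elements of the Banach space -/
theorem family' {c : ℝ} (hc : 0 < c) (hν : 0 < ν) (hcν : c = 4 * Real.pi ^ 2 * ν) (hV : Profile V)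
    (hW : ∀ x, AdmissiblePeriodic ν (V x) (W x) (Q x)) :
    ∃ z : R3 → EE, (∀ x k t, z x k t = Real.exp (c / 2 * max t 0) • XF (W x) k (max t 0)) ∧
      (∀ x, Phi hc (z x) = UV hc hV x) ∧ ∀ x k t i, z x (-k) t i = star (z x k t i) := by
  have hG : ∀ x, Glob ν (W x) (Q x) := fun x => glob_of_adm (hW x) (hV.field x).mean
  choose z hz1 hz2 using fun x => mem_of_glob hc hν hcν (hG x)
  refine ⟨z, hz1, fun x => ?_, fun x k t i => ?_⟩
  · rw [hz2]
    apply lp.ext
    funext k
    ext1 t
    unfold UV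
    rw [hE_apply, hE_apply]
    congr 2
    funext i
    rw [(hV.field x).fc]
    unfold XF Pool.Agent.Q63.Win.cof
    rw [max_self, (hW x).initial]
  · rw [hz1, hz1, Pi.smul_apply, Pi.smul_apply, star_smul, star_trivial (Real.exp _)]
    congr 1
    exact ((hG x).flowC hν).sym (max t 0) k i

/-- the stress in terms of its Fourier coefficients -/
theorem stress_eq' {c : ℝ} (hc : 0 < c) (_hν : 0 < ν) (hG' : ∀ x, Ph.Glob ν (W x) (Q x)) {z : R3 → EE} (hsp : SPv z)
    (hz1 : ∀ x k t, z x k t = Real.exp (c / 2 * max t 0) • XF (W x) k (max t 0)) (j m : Fin 3) :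
    (Summable fun l => ∫ s in Ioi (0 : ℝ), As c z j m l s) ∧ ∀ x, ((stress W j m x : ℝ) : ℂ)
      = H459R3.NS.S (fun l => ∫ s in Ioi (0 : ℝ), As c z j m l s) x := by
  have hsum := cfv_summ hsp
  have hcv := (cvS2 hsum hsum (fun _ => norm_nonneg _) (fun _ => norm_nonneg _)).mul_left (1 / c)
  have hsN : Summable fun l => ∫ s in Ioi (0 : ℝ), ‖As c z j m l s‖ :=
    hcv.of_nonneg_of_le (fun _ => integral_nonneg fun _ => norm_nonneg _) fun l => (As_int hc hsp j m l).2
  refine ⟨Summable.of_norm_bounded hsN fun l => norm_integral_le_integral_norm _, fun x => ?_⟩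
  have hG := hG' x
  have h1 : ∀ s ∈ Ioi (0 : ℝ), ((∫ y in Icc (0 : R3) 1, W x s y j * W x s y m : ℝ) : ℂ)
      = ∑' l, H459R3.NS.ee l x * As c z j m l s := by
    intro s hs
    have hs0 : (0 : ℝ) ≤ s := le_of_lt hs
    have e1 := Pool.Agent.Q63.Win.fr_mul (hG.sp hs0 j) (hG.sp hs0 m) 0
    have e2 : H459R3.NS.fr (fun y => W x s y j * W x s y m) 0
        = ((∫ y in Icc (0 : R3) 1, W x s y j * W x s y m : ℝ) : ℂ) := by
      unfold H459R3.NS.fr H459R3.NS.fc
      rw [neg_zero]
      simp_rw [H459R3.NS.ee_zero, one_mul]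
      exact integral_ofReal
    rw [e2] at e1
    rw [← e1.tsum_eq, ← (Equiv.neg K).tsum_eq]
    have e3 : ∀ k : K, H459R3.NS.fr (fun y => W x s y j) (0 - (Equiv.neg K) k) *
        H459R3.NS.fr (fun y => W x s y m) ((Equiv.neg K) k)
        = Real.exp (-(c * s)) * (z x k s j * z x (-k) s m) := by
      intro k
      rw [hz1, hz1, max_eq_left hs0, Equiv.neg_apply, zero_sub, neg_neg]
      unfold XF Pool.Agent.Q63.Win.cof
      simp only [Pi.smul_apply, Complex.real_smul]
      rw [max_eq_left hs0]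
      have e4 : (Real.exp (-(c * s)) : ℂ) * (Real.exp (c / 2 * s) * Real.exp (c / 2 * s)) = 1 := by
        rw [← Complex.ofReal_mul, ← Complex.ofReal_mul, ← Real.exp_add, ← Real.exp_add,
          show -(c * s) + (c / 2 * s + c / 2 * s) = 0 by ring, Real.exp_zero, Complex.ofReal_one]
      linear_combination (-(H459R3.NS.fr (fun y => W x s y j) k * H459R3.NS.fr (fun y => W x s y m) (-k))) * e4
    rw [tsum_congr e3, tsum_mul_left, ← qs_apply]
    have h2 := cfv_hasSum (qs_smooth hsp s j m) x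
    rw [← h2.tsum_eq, ← tsum_mul_left]
    refine tsum_congr fun l => ?_
    rw [As_eq hsp j m l hs0, smul_eq_mul]
    ring
  unfold stress
  rw [← integral_complex_ofReal, setIntegral_congr_fun measurableSet_Ioi h1]
  unfold H459R3.NS.S
  rw [← integral_tsum_of_summable_integral_norm]
  · refine tsum_congr fun l => ?_
    rw [integral_const_mul, mul_comm]
  · intro l
    exact ((As_int hc hsp j m l).1).const_mul _
  · refine hsN.congr fun l => ?_
    refine integral_congr_ae (Filter.Eventually.of_forall fun s => ?_)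
    simp only
    rw [norm_mul, H459R3.NS.norm_ee, one_mul]

/-- the kick is given by the total Reynolds stress -/
theorem push_eq' {c : ℝ} (hc : 0 < c) (hν : 0 < ν) (hG' : ∀ x, Ph.Glob ν (W x) (Q x)) {z : R3 → EE} (hsp : SPv z)
    (hz1 : ∀ x k t, z x k t = Real.exp (c / 2 * max t 0) • XF (W x) k (max t 0))
    (hfl : CellFlow c (WW c z) (c / 2)) (l : K) (i : Fin 3) : push W l i = Kick (WW c z) l i := by
  rw [Kick_As hsp hfl]
  unfold push
  have h : ∀ j m : Fin 3, ∫ x in Icc (0 : R3) 1, ch (-l) x * (stress W j m x : ℂ)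
      = ∫ s in Ioi (0 : ℝ), As c z j m l s := by
    intro j m
    obtain ⟨h1, h2⟩ := stress_eq' hc hν hG' hsp hz1 j m
    simp only [h2]
    have h3 := H459R3.NS.integral_ee_S (-l) h1
    rw [neg_neg] at h3
    rw [← h3]
    unfold H459R3.NS.cube
    refine integral_congr_ae (Filter.Eventually.of_forall fun x => ?_)
    simp only
    rw [ee_eq_ch]
  simp only [h]

/-- the fast flows as series in both variables -/
theorem WW_series' {c : ℝ} (hG' : ∀ x, Ph.Glob ν (W x) (Q x)) {z : R3 → EE} (hsp : SPv z)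
    (hz1 : ∀ x k t, z x k t = Real.exp (c / 2 * max t 0) • XF (W x) k (max t 0))
    (hfl : CellFlow c (WW c z) (c / 2)) (x : R3) (s : ℝ) (y : R3) (i : Fin 3) (hs : 0 ≤ s) :
    ((W x s y i : ℝ) : ℂ) = ∑' P : K × K, WW c z P s i * (ch P.1 x * ch P.2 y) := by
  have hG := hG' x
  have hnc : ∀ (k : K) (x : R3), ‖ch k x‖ = 1 := fun k x => by rw [← ee_eq_ch, H459R3.NS.norm_ee]
  have hS : Summable fun P : K × K => WW c z P s i * (ch P.1 x * ch P.2 y) := by
    refine Summable.of_norm_bounded (hfl.sn s) fun P => ?_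
    rw [norm_mul, norm_mul, hnc, hnc, mul_one, mul_one]
    exact norm_le_pi_norm _ i
  have hS' : Summable fun P : K × K => WW c z (P.2, P.1) s i * (ch P.2 x * ch P.1 y) :=
    (Equiv.prodComm K K).summable_iff.2 hS
  have e0 : ∑' P : K × K, WW c z P s i * (ch P.1 x * ch P.2 y)
      = ∑' P : K × K, WW c z (P.2, P.1) s i * (ch P.2 x * ch P.1 y) :=
    ((Equiv.prodComm K K).tsum_eq fun P : K × K => WW c z P s i * (ch P.1 x * ch P.2 y)).symm
  rw [e0, hS'.tsum_prod, ← H459R3.NS.S_fr (hG.sp hs i) y]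
  unfold H459R3.NS.S
  refine tsum_congr fun k => ?_
  have h3 : HasSum (fun l => H459R3.NS.ee l x • cfv z l k s) (z x k s) := by
    have h2 := (cfv_hasSum hsp x).mapL (ev k s)
    simpa only [map_smul, ev_apply] using h2
  have h4 : HasSum (fun l => H459R3.NS.ee l x * cfv z l k s i) (z x k s i) := by
    have := Pi.hasSum.1 h3 i
    simpa only [Pi.smul_apply, smul_eq_mul] using this
  have h5 : H459R3.NS.fr (fun y => W x s y i) k = Real.exp (-(c / 2 * s)) * z x k s i := by
    rw [hz1, max_eq_left hs]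
    unfold XF Pool.Agent.Q63.Win.cof
    rw [max_eq_left hs, Pi.smul_apply, Complex.real_smul, ← mul_assoc, ← Complex.ofReal_mul, ← Real.exp_add]
    simp
  rw [h5, ← h4.tsum_eq, ← tsum_mul_left, ← tsum_mul_right]
  refine tsum_congr fun l => ?_
  unfold WW
  rw [max_eq_left hs, Pi.smul_apply, Complex.real_smul, ee_eq_ch, ee_eq_ch]
  ring

/-- the stress through the quadratic form -/
theorem stress_QS' {c : ℝ} (hc : 0 < c) (hG' : ∀ x, Ph.Glob ν (W x) (Q x)) {z : R3 → EE}
    (hz1 : ∀ x k t, z x k t = Real.exp (c / 2 * max t 0) • XF (W x) k (max t 0)) (j m : Fin 3) (x : R3) :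
    ((stress W j m x : ℝ) : ℂ) = QS hc j m (z x) (z x) := by
  have hG := hG' x
  have h1 : ∀ s ∈ Ioi (0 : ℝ), ((∫ y in Icc (0 : R3) 1, W x s y j * W x s y m : ℝ) : ℂ)
      = (Real.exp (-(c * s)) : ℂ) * qs s j m (z x) (z x) := by
    intro s hs
    have hs0 : (0 : ℝ) ≤ s := le_of_lt hs
    have e1 := Pool.Agent.Q63.Win.fr_mul (hG.sp hs0 j) (hG.sp hs0 m) 0
    have e2 : H459R3.NS.fr (fun y => W x s y j * W x s y m) 0
        = ((∫ y in Icc (0 : R3) 1, W x s y j * W x s y m : ℝ) : ℂ) := by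
      unfold H459R3.NS.fr H459R3.NS.fc
      rw [neg_zero]
      simp_rw [H459R3.NS.ee_zero, one_mul]
      exact integral_ofReal
    rw [e2] at e1
    rw [← e1.tsum_eq, ← (Equiv.neg K).tsum_eq]
    have e3 : ∀ k : K, H459R3.NS.fr (fun y => W x s y j) (0 - (Equiv.neg K) k) *
        H459R3.NS.fr (fun y => W x s y m) ((Equiv.neg K) k)
        = Real.exp (-(c * s)) * (z x k s j * z x (-k) s m) := by
      intro k
      rw [hz1, hz1, max_eq_left hs0, Equiv.neg_apply, zero_sub, neg_neg]
      unfold XF Pool.Agent.Q63.Win.cof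
      simp only [Pi.smul_apply, Complex.real_smul]
      rw [max_eq_left hs0]
      have e4 : (Real.exp (-(c * s)) : ℂ) * (Real.exp (c / 2 * s) * Real.exp (c / 2 * s)) = 1 := by
        rw [← Complex.ofReal_mul, ← Complex.ofReal_mul, ← Real.exp_add, ← Real.exp_add,
          show -(c * s) + (c / 2 * s + c / 2 * s) = 0 by ring, Real.exp_zero, Complex.ofReal_one]
      linear_combination (-(H459R3.NS.fr (fun y => W x s y j) k * H459R3.NS.fr (fun y => W x s y m) (-k))) * e4
    rw [tsum_congr e3, tsum_mul_left, ← qs_apply]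
  unfold stress
  rw [← integral_complex_ofReal, setIntegral_congr_fun measurableSet_Ioi h1]
  rfl

/-- the stress is smooth and periodic -/
theorem stress_sp' {c : ℝ} (hc : 0 < c) (hG' : ∀ x, Ph.Glob ν (W x) (Q x)) {z : R3 → EE} (hsp : SPv z)
    (hz1 : ∀ x k t, z x k t = Real.exp (c / 2 * max t 0) • XF (W x) k (max t 0)) (j m : Fin 3) :
    H459R3.NS.SP (stress W j m) := by
  have h0 : ContDiff ℂ ∞ (fun z : EE => QS hc j m z) := by
    have h := ContinuousLinearMap.contDiff (𝕜 := ℂ) (E := EE) (F := EE →L[ℂ] ℂ) (n := ∞) (QS hc j m)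
    exact h
  have h1 : ContDiff ℂ ∞ (fun z : EE => (QS hc j m z) z) := h0.clm_apply (contDiff_id (E := EE))
  have h2 : ContDiff ℝ ∞ fun x => QS hc j m (z x) (z x) := (h1.restrict_scalars ℝ).comp hsp.smooth
  have h3 : stress W j m = fun x => (QS hc j m (z x) (z x)).re := by
    funext x
    rw [← stress_QS' hc hG' hz1, Complex.ofReal_re]
  refine ⟨?_, fun i x => ?_⟩
  · rw [h3]
    exact Complex.reCLM.contDiff.comp h2
  · rw [h3]
    simp only [hsp.per i x]

/-- the push is the Fourier transform of a smooth real divergence free field without mean -/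
theorem push_dta' {c : ℝ} (hc : 0 < c) (hG' : ∀ x, Ph.Glob ν (W x) (Q x)) {z : R3 → EE} (hsp : SPv z)
    (hz1 : ∀ x k t, z x k t = Real.exp (c / 2 * max t 0) • XF (W x) k (max t 0))
    {a : K → C3} (ha : Dta a) : Dta fun k i => a k i + push W k i := by
  have hS := stress_sp' hc hG' hsp hz1
  have hcs : ∀ j m, Continuous (stress W j m) := fun j m => (hS j m).smooth.continuous
  -- the coefficients before the projection
  set y : K → C3 := fun l m => ∑ j, (l j : ℂ) * H459R3.NS.fr (stress W j m) l with hy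
  have hpush : ∀ l, push W l = -(2 * Real.pi * Complex.I) • pr l (y l) := by
    intro l
    funext i
    rw [push_fr, Pi.smul_apply, smul_eq_mul, leray_eq]
  have hmean : (fun i => a 0 i + push W 0 i) = 0 := by
    funext i; rw [ha.mean, push_zero]; simp
  have hdec : ∀ j : ℕ, ∃ D : ℝ, ∀ k, nk k ^ j * ‖(fun i => a k i + push W k i : C3)‖ ≤ D := by
    intro j
    choose C hC0 hC using fun p : Fin 3 × Fin 3 => fr_dec (hS p.1 p.2) (j + 1)
    set CC := ∑ p, C p with hCC
    have hCC0 : 0 ≤ CC := Finset.sum_nonneg fun p _ => hC0 p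
    obtain ⟨Da, hDa⟩ := ha.dec j
    refine ⟨Da + 2 * Real.pi * (4 * (3 * CC)), fun k => ?_⟩
    have hnk := nk_nonneg k
    have h1 : nk k ^ j * ‖a k‖ ≤ Da := hDa k
    have h2 : nk k ^ j * ‖y k‖ ≤ 3 * CC := by
      by_cases hk : nk k ^ j = 0
      · rw [hk, zero_mul]; positivity
      have hp : 0 < nk k ^ j := lt_of_le_of_ne (pow_nonneg hnk j) (Ne.symm hk)
      rw [← le_div_iff₀' hp, pi_norm_le_iff_of_nonneg (by positivity)]
      intro m
      rw [le_div_iff₀' hp]
      have h3 : ∀ j', ‖(k j' : ℂ) * H459R3.NS.fr (stress W j' m) k‖ ≤ nk k * ‖H459R3.NS.fr (stress W j' m) k‖ := by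
        intro j'
        rw [norm_mul, Complex.norm_intCast]
        exact mul_le_mul_of_nonneg_right (abs_le_nk k j') (norm_nonneg _)
      have h4 : ∀ j', nk k ^ j * (nk k * ‖H459R3.NS.fr (stress W j' m) k‖) ≤ CC := by
        intro j'
        have := hC (j', m) k
        rw [pow_succ, mul_assoc] at this
        exact this.trans (Finset.single_le_sum (f := C) (fun p _ => hC0 p) (Finset.mem_univ (j', m)))
      calc nk k ^ j * ‖y k m‖ ≤ nk k ^ j * ∑ j', nk k * ‖H459R3.NS.fr (stress W j' m) k‖ :=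
            mul_le_mul_of_nonneg_left ((norm_sum_le _ _).trans (Finset.sum_le_sum fun j' _ => h3 j')) hp.le
        _ = ∑ j', nk k ^ j * (nk k * ‖H459R3.NS.fr (stress W j' m) k‖) := Finset.mul_sum _ _ _
        _ ≤ ∑ _j' : Fin 3, CC := Finset.sum_le_sum fun j' _ => h4 j'
        _ = 3 * CC := by simp
    have h5 : ‖push W k‖ ≤ 2 * Real.pi * (4 * ‖y k‖) := by
      rw [hpush, norm_smul]
      have e1 : ‖-(2 * (Real.pi : ℂ) * Complex.I)‖ = 2 * Real.pi := by
        rw [norm_neg, norm_mul, norm_mul, Complex.norm_I, Complex.norm_real]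
        simp [abs_of_pos Real.pi_pos]
      rw [e1]
      exact mul_le_mul_of_nonneg_left (leray_norm _ _) (by positivity)
    calc nk k ^ j * ‖(fun i => a k i + push W k i : C3)‖ ≤ nk k ^ j * (‖a k‖ + 2 * Real.pi * (4 * ‖y k‖)) := by
          refine mul_le_mul_of_nonneg_left ?_ (pow_nonneg hnk j)
          exact (norm_add_le (a k) (push W k)).trans (add_le_add le_rfl h5)
      _ = nk k ^ j * ‖a k‖ + 2 * Real.pi * (4 * (nk k ^ j * ‖y k‖)) := by ring
      _ ≤ _ := by gcongr
  refine ⟨summ_of_dec hmean hdec, hmean, fun k i => ?_, fun k => ?_, hdec⟩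
  · have hyr : ∀ m, y (-k) m = -star (y k m) := by
      intro m
      simp only [hy]
      rw [star_sum, ← Finset.sum_neg_distrib]
      refine Finset.sum_congr rfl fun j _ => ?_
      rw [Pool.Agent.Q63.Win.fr_neg (hcs j m) k, star_mul']
      have hz : star ((k j : ℤ) : ℂ) = ((k j : ℤ) : ℂ) := by simp
      rw [hz, Pi.neg_apply]
      push_cast
      simp only [Complex.star_def]
      ring
    have hpr : pr (-k) (y (-k)) = fun i => -star (pr k (y k) i) := by
      funext i
      unfold pr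
      have e1 : dt (-k) (y (-k)) = star (dt k (y k)) := by
        have : y (-k) = -(fun m => star (y k m)) := by funext m; rw [hyr]; rfl
        rw [this]
        have e2 := dt_star k (y k) (fun m => star (y k m)) fun _ => rfl
        have e3 : dt (-k) (-(fun m => star (y k m)) : C3) = -dt (-k) (fun m => star (y k m)) := by
          rw [dt_eq, dt_eq]; simp only [Pi.neg_apply]; ring
        rw [e3, e2, neg_neg]
      rw [hyr, e1, H356R3.NS.sq_neg]
      have hz : star ((k i : ℤ) : ℂ) = ((k i : ℤ) : ℂ) := by simp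
      rw [star_sub, star_div₀, star_mul', hz]
      have hq : star ((H356R3.NS.sq k : ℝ) : ℂ) = ((H356R3.NS.sq k : ℝ) : ℂ) := by simp
      rw [hq, Pi.neg_apply]
      push_cast
      ring
    show a (-k) i + push W (-k) i = star (a k i + push W k i)
    rw [ha.real, hpush, hpush, hpr, star_add]
    congr 1
    simp only [Pi.smul_apply, smul_eq_mul, star_mul', star_neg]
    have h2 : star (2 : ℂ) = 2 := by simp
    have h3 : star (Real.pi : ℂ) = (Real.pi : ℂ) := by simp
    have h4 : star Complex.I = -Complex.I := by simp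
    rw [h2, h3, h4]
    ring
  · show dt k (a k + push W k) = 0
    rw [dt_add', show dt k (a k) = 0 from ha.div k, hpush]
    have : dt k (-(2 * Real.pi * Complex.I) • pr k (y k)) = -(2 * Real.pi * Complex.I) * dt k (pr k (y k)) := by
      rw [dt_eq, dt_eq]; simp only [Pi.smul_apply, smul_eq_mul]; ring
    rw [this, dt_pr]; simp

end Pool.Agent.U162.GE
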