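import Pool.Agent.U162.GE.Ah

/-!
The two-scale theorem on the Fourier side, for all data near the two-scale data
-/

open MeasureTheory Set Filter Topology
open scoped ENNReal NNReal

namespace Pool.Agent.U162.GE

open Pool.Agent.H356R3.NS Pool.Agent.U162.TS

theorem two_scale_gen {c : ℝ} (hc : 0 < c) {X : Fam} (hX : FlowC c X) {w : K × K → ℝ → C3} {σ : ℝ}
    (hw : CellFlow c w σ) {V0 : K → C3} (hV0 : ∑' k, ‖V0 k‖ₑ ≠ ⊤)
    (hws : ∑' P : K × K, ENNReal.ofReal (1 + nk P.1) * ‖w P 0‖ₑ ≠ ⊤)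
    (hg : ∀ k, X k 0 = V0 k + Kick w k) {ε δ : ℝ} (hε : 0 < ε) (hδ : 0 < δ) :
    ∃ ρ : ℝ, 0 < ρ ∧ ∃ F : Finset (K × K),
      LN (fun s => ∑' P : K × K, if P ∈ F then 0 else ‖w P s‖ₑ) ≤ ENNReal.ofReal ε ∧
    ∃ N0 : ℕ, ∀ N : ℕ, N0 ≤ N → ∀ V : K → C3, (∃ S : Finset K, ∀ k ∉ S, V k = 0) → Sym V → V 0 = 0 →
      HN c (V - DN V0 (fun P => w P 0) N) ≤ ENNReal.ofReal ρ →
      ∃ (a : ℝ) (u : Fam), 0 < a ∧ Sol c a V u ∧
      LNd δ (u - X) ≤ ENNReal.ofReal ε ∧
      LN (fun t => NW (Wa 0) (at' (u - X - FM N F (zφ w N)) t)) ≤ ENNReal.ofReal ε := by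
  classical
  have hC := C0_pos
  set D1 := (LN (fun t => NW (Wa 0) (at' X t))).toReal with hD1d
  have hD1 : 0 ≤ D1 := ENNReal.toReal_nonneg
  have hL1 : LN (fun t => NW (Wa 0) (at' X t)) = ENNReal.ofReal D1 := (ENNReal.ofReal_toReal hX.l2).symm
  have hL2t : LN (fun s => ∑' P, ‖w P s‖ₑ) ≠ ⊤ := by
    unfold LN
    apply ENNReal.rpow_ne_top_of_nonneg (by norm_num)
    have e : ∫⁻ t in Ioi (0 : ℝ), (∑' P, ‖w P t‖ₑ) ^ (2 : ℝ)
        = ∫⁻ s in Ioi (0 : ℝ), (∑' P, ‖w P s‖ₑ) * ∑' P, ‖w P s‖ₑ :=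
      lintegral_congr fun t => by rw [ENNReal.rpow_two, pow_two]
    rw [e]; exact hw.l2
  set D2 := (LN (fun s => ∑' P, ‖w P s‖ₑ)).toReal with hD2d
  have hD2 : 0 ≤ D2 := ENNReal.toReal_nonneg
  have hL2 : LN (fun s => ∑' P, ‖w P s‖ₑ) = ENNReal.ofReal D2 := (ENNReal.ofReal_toReal hL2t).symm
  obtain ⟨η, hη, happ⟩ := approx hc (by positivity : 0 < D1 + D2 + 2) (by positivity : 0 < ε / 4)
  set τ := min (1 / 2) (min (ε / 8) (η / (2 * (4 + 2 * C0 * (2 * D1 + 2 * D2 + 1))))) with hτd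
  have hτ : 0 < τ := lt_min (by norm_num) (lt_min (by positivity) (by positivity))
  have hτ1 : τ ≤ 1 / 2 := min_le_left _ _
  have hτ2 : τ ≤ ε / 8 := (min_le_right _ _).trans (min_le_left _ _)
  have hτ3 : τ * (4 + 2 * C0 * (2 * D1 + 2 * D2 + 1)) ≤ η / 2 := by
    have : τ ≤ η / (2 * (4 + 2 * C0 * (2 * D1 + 2 * D2 + 1))) := (min_le_right _ _).trans (min_le_right _ _)
    rw [le_div_iff₀ (by positivity)] at this
    linarith
  -- the size of the perturbation of the data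
  set θ := min 1 (min (ε / 4) (η / (2 * (C0 * (2 * (D1 + D2 + 1) + 1))))) with hθd
  have hθ : 0 < θ := lt_min (by norm_num) (lt_min (by positivity) (by positivity))
  have hθ1 : θ ≤ 1 := min_le_left _ _
  have hθ2 : θ ≤ ε / 4 := (min_le_right _ _).trans (min_le_left _ _)
  have hθ3 : θ * (C0 * (2 * (D1 + D2 + 1) + 1)) ≤ η / 2 := by
    have : θ ≤ η / (2 * (C0 * (2 * (D1 + D2 + 1) + 1))) := (min_le_right _ _).trans (min_le_right _ _)
    rw [le_div_iff₀ (by positivity)] at this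
    linarith
  -- the truncations
  set τ1 := min (τ / C0) ((ε / 4) ^ 2) with hτ1d
  have hτ1p : 0 < τ1 := lt_min (by positivity) (by positivity)
  set sq2 := Real.sqrt (1 / (2 * c)) with hsq2
  have hsq2p : 0 < sq2 := Real.sqrt_pos.2 (by positivity)
  set τ2 := min (min (τ / C0) (τ / (C0 * sq2))) (ε ^ 2) with hτ2d
  have hτ2p : 0 < τ2 := lt_min (lt_min (by positivity) (by positivity)) (by positivity)
  obtain ⟨F1, hF1⟩ := tail_le (a := fun k t => ‖X k t‖ₑ) (fun k => (hX.cf k).enorm.measurable) hX.l2'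
    (ENNReal.ofReal_pos.2 hτ1p)
  obtain ⟨F2, hF2⟩ := tail_le (a := fun P s => ‖w P s‖ₑ) (fun P => (hw.cw P).enorm.measurable) hw.l2
    (ENNReal.ofReal_pos.2 hτ2p)
  obtain ⟨S0, hS0⟩ := tail0 hV0 (ENNReal.ofReal_pos.2 (by positivity : 0 < θ / (4 * sq2)))
  obtain ⟨Sb, hSb⟩ := tail0 hws (ENNReal.ofReal_pos.2 (by positivity : 0 < θ / (16 * sq2)))
  set G := F2 ∪ Sb ∪ (F1.image (fun κ : K => ((κ, 0) : K × K)) ∪ S0.image (fun κ : K => ((κ, 0) : K × K)))
    with hG
  set F := G ∪ G.image (fun P => -P) with hFd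
  have hGF : G ⊆ F := Finset.subset_union_left
  have hFneg : ∀ P ∈ F, -P ∈ F := by
    intro P hP
    rw [hFd, Finset.mem_union] at hP ⊢
    rcases hP with hP | hP
    · exact Or.inr (Finset.mem_image_of_mem _ hP)
    · rw [Finset.mem_image] at hP
      obtain ⟨Q, hQ, rfl⟩ := hP
      rw [neg_neg]; exact Or.inl hQ
  have hF2F : F2 ⊆ F := fun P hP => hGF (by rw [hG]; simp [hP])
  have hSbF : Sb ⊆ F := fun P hP => hGF (by rw [hG]; simp [hP])
  set Fb := (F.image Prod.fst).filter fun κ => ((κ, 0) : K × K) ∈ F with hFb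
  have memFb : ∀ κ, κ ∈ Fb ↔ ((κ, 0) : K × K) ∈ F := by
    intro κ
    rw [hFb, Finset.mem_filter, Finset.mem_image]
    exact ⟨fun h => h.2, fun h => ⟨⟨(κ, 0), h, rfl⟩, h⟩⟩
  have hF1F : F1 ⊆ Fb := fun κ hκ => (memFb κ).2 (hGF (by rw [hG]; simp [hκ]))
  have hS0F : S0 ⊆ Fb := fun κ hκ => (memFb κ).2 (hGF (by rw [hG]; simp [hκ]))
  have hFbneg : ∀ κ ∈ Fb, -κ ∈ Fb := by
    intro κ hκ
    rw [memFb] at hκ ⊢
    simpa using hFneg _ hκ
  have hlost1 := hF1 Fb hF1F
  have hlost2 := hF2 F hF2F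
  have hu := base_apx hX hFbneg
  obtain ⟨B, hA⟩ := cell_apx hw hFneg
  -- hypotheses of the core theorem
  set M := (F ∪ TT (cS F)).image Prod.fst with hM
  have hmM : ∀ κ ∉ M, mis F w κ = 0 := by
    intro κ hκ
    apply mis_out
    · intro h; apply hκ
      rw [hM, Finset.mem_image]
      exact ⟨(κ, 0), Finset.mem_union_left _ h, rfl⟩
    · intro h; apply hκ
      rw [hM, Finset.mem_image]
      exact ⟨(κ, 0), Finset.mem_union_right _ h, rfl⟩
  have h1 : LN (fun t => NW (Wa 0) (at' (resF Fb X) t)) ≤ ENNReal.ofReal D1 := by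
    rw [← hL1]; exact base_norm hX Fb
  have h2 : LN (fun s => ENNReal.ofReal (tot (cS F) fun P => cw' F w P s)) ≤ ENNReal.ofReal D2 := by
    rw [← hL2]
    refine LN_mono fun s _ => ?_
    unfold tot
    rw [ENNReal.ofReal_sum_of_nonneg fun _ _ => norm_nonneg _]
    refine le_trans ?_ (ENNReal.sum_le_tsum (cS F))
    refine Finset.sum_le_sum fun P _ => ?_
    rw [ofReal_norm]
    unfold cw'
    split_ifs <;> simp
  have h3 : ∑ l ∈ M, ‖mis F w l‖ * Real.sqrt (1 / (2 * c)) * (1 / nk l) ≤ τ := by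
    have e1 : ENNReal.ofReal (∑ l ∈ M, ‖mis F w l‖ * (1 / nk l)) ≤ ENNReal.ofReal (C0 * τ2) := by
      rw [ENNReal.ofReal_sum_of_nonneg fun l _ => mul_nonneg (norm_nonneg _) (one_div_nonneg.2 (nk_nonneg _))]
      have : ∀ l, ENNReal.ofReal (‖mis F w l‖ * (1 / nk l)) = ‖mis F w l‖ₑ * ENNReal.ofReal (1 / nk l) := by
        intro l; rw [ENNReal.ofReal_mul (norm_nonneg _), ofReal_norm]
      simp only [this]
      refine (mis_sum hw hFneg M).trans ?_
      rw [ENNReal.ofReal_mul hC.le]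
      exact mul_le_mul' le_rfl hlost2
    rw [ENNReal.ofReal_le_ofReal_iff (by positivity)] at e1
    have e2 : ∑ l ∈ M, ‖mis F w l‖ * Real.sqrt (1 / (2 * c)) * (1 / nk l)
        = sq2 * ∑ l ∈ M, ‖mis F w l‖ * (1 / nk l) := by
      rw [Finset.mul_sum]
      exact Finset.sum_congr rfl fun l _ => by rw [← hsq2]; ring
    rw [e2]
    have e3 : τ2 ≤ τ / (C0 * sq2) := (min_le_left _ _).trans (min_le_right _ _)
    rw [le_div_iff₀ (by positivity)] at e3
    nlinarith
  have hr1 : ∫⁻ t in Ioi 0, NW (Wm 0) (at' (Bt (resF Fb X) - resF Fb (Bt X)) t) ≤ ENNReal.ofReal τ := by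
    refine (base_res hX Fb).trans ((mul_le_mul' le_rfl hlost1).trans ?_)
    rw [← ENNReal.ofReal_mul hC.le]
    apply ENNReal.ofReal_le_ofReal
    have : τ1 ≤ τ / C0 := min_le_left _ _
    rw [le_div_iff₀ hC] at this
    linarith
  have hr2 : ∫⁻ s in Ioi 0, ENNReal.ofReal (rho (cS F) (cw' F w) (cf'' F w) s) ≤ ENNReal.ofReal τ := by
    have hm : Measurable fun s => lost F fun P => ‖w P s‖ₑ := by
      unfold lost
      refine Measurable.tsum fun p => ?_
      split_ifs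
      · exact measurable_const
      · exact (hw.cw _).enorm.measurable.mul (hw.cw _).enorm.measurable
    refine (lintegral_mono fun s => cell_res hw F s).trans ?_
    rw [lintegral_const_mul _ hm]
    refine (mul_le_mul' le_rfl hlost2).trans ?_
    rw [← ENNReal.ofReal_mul hC.le]
    apply ENNReal.ofReal_le_ofReal
    have : τ2 ≤ τ / C0 := (min_le_left _ _).trans (min_le_left _ _)
    rw [le_div_iff₀ hC] at this
    linarith
  obtain ⟨N0, hN0⟩ := core hc hu hA hmM (mis_sym hw hFneg) (mis_zero F w) hD1 hD2 hτ.le h1 h2 h3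
    hτ.le hτ.le hr1 hr2 hτ hδ
  refine ⟨θ / 2, by positivity, F, ?_, N0, fun N hN V hVf hVs hV00 hVρ => ?_⟩
  · unfold LN
    have t1 : ∫⁻ t in Ioi (0 : ℝ), (∑' P : K × K, if P ∈ F then 0 else ‖w P t‖ₑ) ^ (2 : ℝ)
        ≤ ∫⁻ t in Ioi (0 : ℝ), lost F fun P => ‖w P t‖ₑ := by
      refine lintegral_mono fun t => ?_
      simp only
      rw [ENNReal.rpow_two, pow_two]
      exact tail_sq_le F fun P => ‖w P t‖ₑ
    refine (ENNReal.rpow_le_rpow (t1.trans hlost2) (by norm_num)).trans ?_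
    rw [ENNReal.ofReal_rpow_of_nonneg hτ2p.le (by norm_num), ← Real.sqrt_eq_rpow]
    apply ENNReal.ofReal_le_ofReal
    rw [Real.sqrt_le_left hε.le]
    exact min_le_right _ _
  obtain ⟨U, Gf, hUG, hUn, hUr, hUc, hUz⟩ := hN0 N hN
  have hdat : res Fb (at' X 0) + mis F w - kick (cS F) (cw' F w) + dat N (cS F) (cw' F w)
      = res Fb V0 + dat N (cS F) (cw' F w) := by
    congr 1
    funext κ
    simp only [Pi.sub_apply, Pi.add_apply, res, mis, at']
    by_cases hκ : κ ∈ Fb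
    · rw [if_pos hκ, if_pos hκ, if_pos ((memFb κ).1 hκ), hg]
      abel
    · rw [if_neg hκ, if_neg hκ, if_neg (fun h => hκ ((memFb κ).2 h))]
      abel
  rw [hdat] at hUG
  -- the tail of the data
  have htail : HN c (DN V0 (fun P => w P 0) N - (res Fb V0 + dat N (cS F) (cw' F w)))
      ≤ ENNReal.ofReal (θ / 2) := by
    have hz0 : (DN V0 (fun P => w P 0) N - (res Fb V0 + dat N (cS F) (cw' F w))) 0 = 0 := by
      have h6 := hUG.ini 0
      rw [hUG.zu] at h6
      rw [Pi.sub_apply, ← h6, sub_zero]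
      unfold DN
      rw [if_pos rfl]
    refine (HN_le hc hz0).trans ?_
    refine (mul_le_mul' le_rfl (eN_tail hw.k0 (hw.sn 0) F Fb N)).trans ?_
    refine (mul_le_mul' le_rfl (add_le_add (hS0 Fb hS0F) (mul_le_mul' le_rfl (hSb F hSbF)))).trans ?_
    rw [show (4 : ℝ≥0∞) = ENNReal.ofReal 4 by norm_num, ← ENNReal.ofReal_mul (by norm_num),
      ← ENNReal.ofReal_add (by positivity) (by positivity), ← ENNReal.ofReal_mul (by positivity)]
    apply ENNReal.ofReal_le_ofReal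
    rw [← hsq2]
    apply le_of_eq
    field_simp
    ring
  have hpert : HN c (V - (res Fb V0 + dat N (cS F) (cw' F w))) ≤ ENNReal.ofReal θ := by
    refine (HN_tri c _ (DN V0 (fun P => w P 0) N) _).trans ((add_le_add hVρ htail).trans (le_of_eq ?_))
    rw [← ENNReal.ofReal_add (by positivity) (by positivity)]
    congr 1; ring
  have hUn' : LN (fun t => NW (Wa 0) (at' U t)) ≤ ENNReal.ofReal (D1 + D2 + (τ + τ)) := hUn
  obtain ⟨hUG2, hUn2, hUr2⟩ := apx_heat hc hUG hVf hVs hV00 (by positivity) (by positivity) hθ.le hUn' hUr hpert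
  set m := V - (res Fb V0 + dat N (cS F) (cw' F w)) with hm
  obtain ⟨a, u, ha, hS, hcl⟩ := happ _ (U + mF c m) Gf hUG2
    (hUn2.trans (ENNReal.ofReal_le_ofReal (by linarith)))
    (hUr2.trans (ENNReal.ofReal_le_ofReal (by
      have h5 : (τ + τ) * (2 * D1 + 2 * D2 + (τ + τ)) ≤ 2 * τ * (2 * D1 + 2 * D2 + 1) := by
        have : (τ + τ) ≤ 1 := by linarith
        nlinarith
      have h6 := mul_le_mul_of_nonneg_left h5 hC.le
      have h7 : θ * (2 * (D1 + D2 + (τ + τ)) + θ) ≤ θ * (2 * (D1 + D2 + 1) + 1) :=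
        mul_le_mul_of_nonneg_left (by linarith) hθ.le
      have h8 := mul_le_mul_of_nonneg_left h7 hC.le
      nlinarith)))
  have hzF : FM N (TT (cS F)) (zφ (cw' F w) N) = FM N F (zφ w N) := by
    have b1 : ∀ t : ℝ, at' (FM N (TT (cS F)) (zφ (cw' F w) N)) t = at' (FM N F (zφ w N)) t := by
      intro t
      rw [at'_FM, at'_FM]
      have a0 : ∀ P ∉ cS F, zφ (cw' F w) N P (max t 0) = 0 := fun P hP => by
        unfold zφ cw'; rw [if_neg hP, smul_zero]
      have hsub : cS F ⊆ F := fun P hP => (mem_cS.1 hP).1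
      rw [lf_sub (sub_TT (cS F)) a0, ← lf_sub hsub a0]
      unfold lf
      refine Finset.sum_congr rfl fun P hP => ?_
      congr 1
      unfold zφ cw'
      by_cases h2 : P ∈ cS F
      · simp only [if_pos h2]
      · simp only [if_neg h2]
        have : P.2 = 0 := by
          by_contra h3; exact h2 (mem_cS.2 ⟨hP, h3⟩)
        rw [hw.k0 P this]
    funext k t
    exact congrFun (b1 t) k
  rw [hzF] at hUz
  have c0 : CF (FM N F (zφ w N)) := by
    intro k
    unfold FM lf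
    simp only [Finset.sum_apply]
    refine continuous_finsetSum _ fun P _ => ?_
    unfold Sg zφ
    have hcP := hw.cw P
    split_ifs
    · fun_prop
    · exact continuous_const
  have c1 : CF (u - (U + mF c m)) := fun k => (hS.cf k).sub (hUG2.cf k)
  have c3 : CF (resF Fb X - X) := fun k => (resF_cf hX.cf k).sub (hX.cf k)
  have c4 : CF (mF c m) := mF_cf c m
  have l3' : LN (fun t => NW (Wa 0) (at' (resF Fb X - X) t)) ≤ ENNReal.ofReal (ε / 4) := by
    have e3 : (fun t => NW (Wa 0) (at' (resF Fb X - X) t)) = fun t => NW (Wa 0) (at' (X - resF Fb X) t) := by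
      funext t
      rw [← NW_neg]
      congr 1
      funext k
      simp [at']
    rw [e3]
    refine (base_close hX Fb).trans ((ENNReal.rpow_le_rpow hlost1 (by norm_num)).trans ?_)
    rw [ENNReal.ofReal_rpow_of_nonneg hτ1p.le (by norm_num), ← Real.sqrt_eq_rpow]
    apply ENNReal.ofReal_le_ofReal
    rw [Real.sqrt_le_left (by positivity)]
    exact min_le_right _ _
  have l4' : LN (fun t => NW (Wa 0) (at' (mF c m) t)) ≤ ENNReal.ofReal (ε / 4) :=
    hpert.trans (ENNReal.ofReal_le_ofReal hθ2)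
  have hsum4 : ENNReal.ofReal (ε / 4) + (ENNReal.ofReal (ε / 4) + (ENNReal.ofReal (ε / 4) + ENNReal.ofReal (ε / 4)))
      = ENNReal.ofReal ε := by
    rw [← ENNReal.ofReal_add (by positivity) (by positivity),
      ← ENNReal.ofReal_add (by positivity) (by positivity), ← ENNReal.ofReal_add (by positivity) (by positivity)]
    congr 1; ring
  refine ⟨a, u, ha, hS, ?_, ?_⟩
  · have e : u - X = (u - (U + mF c m)) + (mF c m + ((U - resF Fb X) + (resF Fb X - X))) := by abel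
    have c2 : CF (U - resF Fb X) := fun k => (hUG.cf k).sub (resF_cf hX.cf k)
    have c23 : CF ((U - resF Fb X) + (resF Fb X - X)) := fun k => (c2 k).add (c3 k)
    have c234 : CF (mF c m + ((U - resF Fb X) + (resF Fb X - X))) := fun k => (c4 k).add (c23 k)
    have l1' : LNd δ (u - (U + mF c m)) ≤ ENNReal.ofReal (ε / 4) := (LNd_le_LN _ _).trans hcl
    have l2' : LNd δ (U - resF Fb X) ≤ ENNReal.ofReal (ε / 4) :=
      hUc.trans (ENNReal.ofReal_le_ofReal (by linarith))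
    rw [e, ← hsum4]
    exact (LNd_add c1 c234).trans (add_le_add l1' ((LNd_add c4 c23).trans (add_le_add ((LNd_le_LN _ _).trans l4')
      ((LNd_add c2 c3).trans (add_le_add l2' ((LNd_le_LN _ _).trans l3'))))))
  · have e : u - X - FM N F (zφ w N) = (u - (U + mF c m))
        + (mF c m + ((U - resF Fb X - FM N F (zφ w N)) + (resF Fb X - X))) := by abel
    have c2 : CF (U - resF Fb X - FM N F (zφ w N)) := fun k => ((hUG.cf k).sub (resF_cf hX.cf k)).sub (c0 k)
    have m1 := NW_meas (Wa 0) c1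
    have m2 := NW_meas (Wa 0) c2
    have m3 := NW_meas (Wa 0) c3
    have m4 := NW_meas (Wa 0) c4
    rw [e, ← hsum4]
    calc _ ≤ LN (fun t => NW (Wa 0) (at' (u - (U + mF c m)) t) + (NW (Wa 0) (at' (mF c m) t)
            + (NW (Wa 0) (at' (U - resF Fb X - FM N F (zφ w N)) t) + NW (Wa 0) (at' (resF Fb X - X) t)))) :=
          LN_mono fun t _ => (NW_add_le _ _ _).trans (add_le_add le_rfl ((NW_add_le _ _ _).trans
            (add_le_add le_rfl (NW_add_le _ _ _))))
      _ ≤ LN (fun t => NW (Wa 0) (at' (u - (U + mF c m)) t)) + (LN (fun t => NW (Wa 0) (at' (mF c m) t))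
            + (LN (fun t => NW (Wa 0) (at' (U - resF Fb X - FM N F (zφ w N)) t))
              + LN (fun t => NW (Wa 0) (at' (resF Fb X - X) t)))) :=
          (LN_add_le m1 (m4.add (m2.add m3))).trans (add_le_add le_rfl ((LN_add_le m4 (m2.add m3)).trans
            (add_le_add le_rfl (LN_add_le m2 m3))))
      _ ≤ _ := add_le_add hcl (add_le_add l4' (add_le_add (hUz.trans (ENNReal.ofReal_le_ofReal (by linarith))) l3'))

end Pool.Agent.U162.GE
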