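import Pool.Agent.U162.GE.Fm
import Pool.Agent.U162.GE.Defs

/-!
Smooth profiles
-/

open MeasureTheory Set Filter Topology
open scoped ENNReal NNReal ContDiff

namespace Pool.Agent.U162.GE

open Pool.Agent.H356R3.NS Pool.Agent.U162.TS Pool.Agent.U162.TS.EL Pool.Agent.U162.TS.VF Pool.Agent.U162.PL

variable {a : R3 → R3} {V : R3 → R3 → R3}

lemma Field.sp (h : Field a) (i : Fin 3) : H459R3.NS.SP fun x => a x i where
  smooth := (contDiff_pi.1 h.smooth) i
  per := fun j x => by simp only [h.periodic x j]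

lemma Field.fc (_h : Field a) (k : K) (i : Fin 3) : H356R3.NS.fc a k i = H459R3.NS.fr (fun x => a x i) k :=
  (fr_eq_fc a k i).symm

lemma Field.dt (h : Field a) (k : K) : dt k (H356R3.NS.fc a k) = 0 := by
  have h1 : H459R3.NS.fr (fun x => ∑ i, H459R3.NS.pd i (fun y => a y i) x) k
      = ∑ i, H459R3.NS.fr (H459R3.NS.pd i (fun y => a y i)) k := by
    have := H459R3.NS.fr_sum (s := Finset.univ) (f := fun i => H459R3.NS.pd i (fun y => a y i))
      (fun i _ => (h.sp i).pd i) k
    exact this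
  have h2 : (fun x => ∑ i, H459R3.NS.pd i (fun y => a y i) x) = fun _ => (0 : ℝ) := by
    funext x; exact h.divFree x
  have h3 : H459R3.NS.fr (fun _ : R3 => (0 : ℝ)) k = 0 := by
    unfold H459R3.NS.fr H459R3.NS.fc; simp
  rw [h2, h3] at h1
  have h4 : ∀ i, H459R3.NS.fr (H459R3.NS.pd i (fun y => a y i)) k
      = 2 * Real.pi * Complex.I * ((k i : ℂ) * H356R3.NS.fc a k i) := by
    intro i
    rw [H459R3.NS.fr_pd (h.sp i), h.fc]
    unfold H459R3.NS.D
    ring
  simp only [h4] at h1
  rw [← Finset.mul_sum] at h1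
  have h5 : (2 * Real.pi * Complex.I : ℂ) ≠ 0 := by
    simp [Real.pi_ne_zero, Complex.I_ne_zero]
  unfold H356R3.NS.dt
  exact (mul_eq_zero.1 h1.symm).resolve_left h5

lemma Field.dta (h : Field a) : Dta fun k => H356R3.NS.fc a k := by
  have hm : H356R3.NS.fc a 0 = 0 := by
    funext i
    rw [h.fc]
    unfold H459R3.NS.fr H459R3.NS.fc
    rw [neg_zero]
    simp_rw [H459R3.NS.ee_zero, one_mul]
    rw [integral_complex_ofReal]
    have : ∫ x in H459R3.NS.cube, a x i = 0 := h.mean i
    rw [this]; rfl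
  have hdec : ∀ j : ℕ, ∃ D : ℝ, ∀ k, nk k ^ j * ‖H356R3.NS.fc a k‖ ≤ D := by
    intro j
    choose C hC0 hC using fun i => fr_dec (h.sp i) j
    refine ⟨∑ i, C i, fun k => ?_⟩
    have hb : ‖H356R3.NS.fc a k‖ ≤ ∑ i, ‖H459R3.NS.fr (fun x => a x i) k‖ := by
      rw [pi_norm_le_iff_of_nonneg (Finset.sum_nonneg fun _ _ => norm_nonneg _)]
      intro i
      rw [h.fc]
      exact Finset.single_le_sum (f := fun i => ‖H459R3.NS.fr (fun x => a x i) k‖) (fun _ _ => norm_nonneg _)
        (Finset.mem_univ i)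
    calc nk k ^ j * ‖H356R3.NS.fc a k‖ ≤ nk k ^ j * ∑ i, ‖H459R3.NS.fr (fun x => a x i) k‖ :=
          mul_le_mul_of_nonneg_left hb (pow_nonneg (nk_nonneg k) j)
      _ = ∑ i, nk k ^ j * ‖H459R3.NS.fr (fun x => a x i) k‖ := Finset.mul_sum _ _ _
      _ ≤ _ := Finset.sum_le_sum fun i _ => hC i k
  refine ⟨summ_of_dec hm hdec, hm, fun k i => ?_, h.dt, hdec⟩
  rw [h.fc, h.fc, Pool.Agent.Q63.Win.fr_neg (h.sp i).smooth.continuous]
  rfl

lemma Field.series (h : Field a) (x : R3) (i : Fin 3) : (∑' k, H356R3.NS.fc a k i * ch k x).re = a x i := by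
  have h1 := H459R3.NS.S_fr (h.sp i) x
  have h2 : ∑' k, H356R3.NS.fc a k i * ch k x = H459R3.NS.S (H459R3.NS.fr fun x => a x i) x := by
    unfold H459R3.NS.S
    exact tsum_congr fun k => by rw [h.fc, ee_eq_ch]
  rw [h2, h1, Complex.ofReal_re]

lemma Profile.s2 (hV : Profile V) (i : Fin 3) : S2 fun x y => V x y i where
  smooth := (contDiff_pi.1 hV.smooth) i
  px := fun x y j => by rw [hV.periodic]
  py := fun x y j => by rw [(hV.field x).periodic]

/-- the coefficients in both variables -/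
noncomputable def bV (V : R3 → R3 → R3) (P : K × K) : C3 := fun i => bb (fun x y => V x y i) P.1 P.2

lemma bV_fc (hV : Profile V) (P : K × K) (i : Fin 3) :
    bV V P i = H459R3.NS.fc (fun x => H356R3.NS.fc (V x) P.2 i) P.1 := by
  unfold bV bb
  congr 1
  funext x
  rw [(hV.field x).fc]

lemma Profile.pg (hV : Profile V) : PG (bV V) where
  real := fun P i => by
    unfold bV bb
    have e : ∀ x, H459R3.NS.fr (fun y => V x y i) (-P).2 = (starRingEnd ℂ) (H459R3.NS.fr (fun y => V x y i) P.2) :=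
      fun x => Pool.Agent.Q63.Win.fr_neg ((hV.s2 i).fy x).smooth.continuous P.2
    simp only [e]
    unfold H459R3.NS.fc
    rw [Complex.star_def, ← integral_conj]
    refine integral_congr_ae (Filter.Eventually.of_forall fun x => ?_)
    simp only
    rw [map_mul, H459R3.NS.ee_neg (-P).1, H459R3.NS.ee_neg P.1, Prod.fst_neg, H459R3.NS.ee_neg P.1]
  div := fun P => by
    have h1 : ∀ x, dt P.2 (H356R3.NS.fc (V x) P.2) = 0 := fun x => (hV.field x).dt P.2
    unfold H356R3.NS.dt at h1 ⊢
    simp only [bV_fc hV]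
    unfold H459R3.NS.fc
    have h2 : ∀ j, (P.2 j : ℂ) * ∫ x in H459R3.NS.cube, H459R3.NS.ee (-P.1) x * H356R3.NS.fc (V x) P.2 j
        = ∫ x in H459R3.NS.cube, (P.2 j : ℂ) * (H459R3.NS.ee (-P.1) x * H356R3.NS.fc (V x) P.2 j) := fun j =>
      (integral_const_mul _ _).symm
    simp only [h2]
    have hc : ∀ j, Continuous fun x => H356R3.NS.fc (V x) P.2 j := by
      intro j
      have := (hV.s2 j).phc P.2
      have e : (fun x => H356R3.NS.fc (V x) P.2 j) = fun x => H459R3.NS.fr (fun y => V x y j) P.2 :=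
        funext fun x => (hV.field x).fc P.2 j
      rw [e]; exact this
    have hint : ∀ j ∈ (Finset.univ : Finset (Fin 3)), Integrable (fun x =>
        (P.2 j : ℂ) * (H459R3.NS.ee (-P.1) x * H356R3.NS.fc (V x) P.2 j)) (volume.restrict H459R3.NS.cube) := fun j _ =>
      H459R3.NS.integrableOn_cube (continuous_const.mul ((H459R3.NS.ee_continuous _).mul (hc j)))
    rw [← integral_finsetSum _ hint]
    have h3 : ∀ x, ∑ j, (P.2 j : ℂ) * (H459R3.NS.ee (-P.1) x * H356R3.NS.fc (V x) P.2 j) = 0 := by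
      intro x
      have : ∑ j, (P.2 j : ℂ) * (H459R3.NS.ee (-P.1) x * H356R3.NS.fc (V x) P.2 j)
          = H459R3.NS.ee (-P.1) x * ∑ j, (P.2 j : ℂ) * H356R3.NS.fc (V x) P.2 j := by
        rw [Finset.mul_sum]; exact Finset.sum_congr rfl fun j _ => by ring
      rw [this, h1 x, mul_zero]
    simp only [h3]
    simp
  mean := fun P hP => by
    funext i
    rw [bV_fc hV, hP]
    have : ∀ x, H356R3.NS.fc (V x) 0 i = 0 := fun x => by rw [(hV.field x).dta.mean]; rfl
    simp only [this]
    unfold H459R3.NS.fc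
    simp

/-- decay of the coefficients -/
lemma Profile.dec (hV : Profile V) (m : ℕ) : ∃ C : ℝ, 0 ≤ C ∧ ∀ P : K × K,
    (1 + (H459R3.NS.N P.1 : ℝ)) ^ m * ‖bV V P‖
      ≤ C * (1 / (1 + (H459R3.NS.N P.1 : ℝ)) ^ 4 * (1 / (1 + (H459R3.NS.N P.2 : ℝ)) ^ 4)) := by
  choose C hC0 hC using fun i => (hV.s2 i).decay' m
  refine ⟨∑ i, C i, Finset.sum_nonneg fun i _ => hC0 i, fun P => ?_⟩
  have hb : ‖bV V P‖ ≤ ∑ i, ‖bV V P i‖ := by
    rw [pi_norm_le_iff_of_nonneg (Finset.sum_nonneg fun _ _ => norm_nonneg _)]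
    intro i
    exact Finset.single_le_sum (f := fun i => ‖bV V P i‖) (fun _ _ => norm_nonneg _) (Finset.mem_univ i)
  calc (1 + (H459R3.NS.N P.1 : ℝ)) ^ m * ‖bV V P‖ ≤ (1 + (H459R3.NS.N P.1 : ℝ)) ^ m * ∑ i, ‖bV V P i‖ :=
        mul_le_mul_of_nonneg_left hb (by positivity)
    _ = ∑ i, (1 + (H459R3.NS.N P.1 : ℝ)) ^ m * ‖bV V P i‖ := Finset.mul_sum _ _ _
    _ ≤ ∑ i, C i * (1 / (1 + (H459R3.NS.N P.1 : ℝ)) ^ 4 * (1 / (1 + (H459R3.NS.N P.2 : ℝ)) ^ 4)) :=
        Finset.sum_le_sum fun i _ => hC i P.1 P.2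
    _ = _ := (Finset.sum_mul _ _ _).symm

lemma Profile.summ (hV : Profile V) (m : ℕ) :
    Summable fun P : K × K => (1 + (H459R3.NS.N P.1 : ℝ)) ^ m * ‖bV V P‖ := by
  obtain ⟨C, hC0, hC⟩ := hV.dec m
  refine Summable.of_nonneg_of_le (fun P => by positivity) hC ?_
  refine Summable.mul_left _ ?_
  exact summable_N4'.mul_of_nonneg summable_N4' (fun k => by positivity) fun k => by positivity

variable {c : ℝ} (hc : 0 < c)

/-- the heat flow of the data -/
noncomputable def UV (hV : Profile V) (x : R3) : EE := hE hc (fun k => H356R3.NS.fc (V x) k) (hV.field x).dta.sum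

/-- the terms of the series -/
noncomputable def sV (V : R3 → R3 → R3) (P : K × K) : EE :=
  lp.single (E := fun _ : K => TB) 1 P.2 (hT hc P.2 (bV V P))

lemma hT_norm (k : K) (v : C3) : ‖hT hc k v‖ ≤ ‖v‖ := by
  refine (BoundedContinuousFunction.norm_le (norm_nonneg _)).2 fun t => ?_
  rw [hT_apply, norm_smul, Real.norm_of_nonneg (Real.exp_pos _).le]
  have h1 : Real.exp (-(EL.mk c k * max t 0)) ≤ 1 := by
    rw [Real.exp_le_one_iff]
    have := mul_nonneg (mk_pos hc k).le (le_max_right t 0)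
    linarith
  exact mul_le_of_le_one_left (norm_nonneg _) h1

lemma sV_norm (P : K × K) : ‖sV hc V P‖ ≤ ‖bV V P‖ := by
  unfold sV
  rw [lp.norm_single (by norm_num)]
  exact hT_norm hc _ _

lemma sV_summ (hV : Profile V) (m : ℕ) : Summable fun P : K × K => (1 + (H459R3.NS.N P.1 : ℝ)) ^ m * ‖sV hc V P‖ :=
  (hV.summ m).of_nonneg_of_le (fun P => by positivity) fun P => mul_le_mul_of_nonneg_left (sV_norm hc P) (by positivity)

lemma sV_eval (P : K × K) (k : K) (t : ℝ) (i : Fin 3) :
    sV hc V P k t i = if k = P.2 then (Real.exp (-(EL.mk c k * max t 0)) : ℂ) * bV V P i else 0 := by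
  unfold sV
  rw [lp.single_apply]
  by_cases h : k = P.2
  · subst h
    rw [if_pos rfl, Pi.single_eq_same, hT_apply, Pi.smul_apply, Complex.real_smul]
  · rw [if_neg h, Pi.single_eq_of_ne h]; rfl

lemma UV_eq (hV : Profile V) (x : R3) : UV hc hV x = ∑' P : K × K, H459R3.NS.ee P.1 x • sV hc V P := by
  have hs : Summable fun P : K × K => H459R3.NS.ee P.1 x • sV hc V P := by
    refine Summable.of_norm_bounded (g := fun P => ‖sV hc V P‖) ?_ fun P => ?_
    · simpa using sV_summ hc hV 0
    · rw [norm_smul, H459R3.NS.norm_ee, one_mul]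
  apply lp.ext
  funext k
  ext1 t
  funext i
  have h1 : (∑' P : K × K, H459R3.NS.ee P.1 x • sV hc V P) k t i
      = ∑' P : K × K, H459R3.NS.ee P.1 x * sV hc V P k t i := by
    have := (evi k t i).map_tsum hs
    have e : ∀ y : EE, evi k t i y = y k t i := fun y => rfl
    rw [e] at this
    rw [this]
    refine tsum_congr fun P => ?_
    rw [map_smul, smul_eq_mul, e]
  rw [h1]
  have h2 : ∑' P : K × K, H459R3.NS.ee P.1 x * sV hc V P k t i
      = ∑' l : K, (Real.exp (-(EL.mk c k * max t 0)) : ℂ) * (bb (fun x y => V x y i) l k * H459R3.NS.ee l x) := by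
    have hinj : Function.Injective fun l : K => ((l, k) : K × K) := fun l l' h => congrArg Prod.fst h
    rw [← hinj.tsum_eq (f := fun P : K × K => H459R3.NS.ee P.1 x * sV hc V P k t i)]
    · refine tsum_congr fun l => ?_
      simp only [sV_eval]
      unfold bV
      simp only [if_true]
      ring
    · intro P hP
      rw [Function.mem_support] at hP
      have : k = P.2 := by
        by_contra h
        exact hP (by rw [sV_eval, if_neg h, mul_zero])
      exact ⟨P.1, by rw [this]⟩
  rw [h2, tsum_mul_left, ((hV.s2 i).series k x).tsum_eq]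
  unfold UV
  rw [hE_apply, hT_apply, Pi.smul_apply, Complex.real_smul, (hV.field x).fc]

/-- the heat flow of the data is a smooth function of the parameter -/
theorem UV_fu (hV : Profile V) : FU hc (bV V) (UV hc hV) where
  sp := by
    refine ⟨?_, fun i x => ?_⟩
    · have e : UV hc hV = fun x => ∑' P : K × K, H459R3.NS.ee P.1 x • sV hc V P := funext fun x => UV_eq hc hV x
      rw [e]
      exact series_smooth (l := fun P : K × K => P.1) (s := fun P => sV hc V P) fun n => sV_summ hc hV n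
    · apply lp.ext
      funext k
      ext1 t
      unfold UV
      rw [hE_apply, hE_apply]
      have : V (x + Pi.single i 1) = V x := funext fun y => hV.periodic x y i
      rw [this]
  cf := fun l k t => by
    have hcU : Continuous (UV hc hV) := by
      have e : UV hc hV = fun x => ∑' P : K × K, H459R3.NS.ee P.1 x • sV hc V P := funext fun x => UV_eq hc hV x
      rw [e]
      exact (series_smooth (l := fun P : K × K => P.1) (s := fun P => sV hc V P) fun n => sV_summ hc hV n).continuous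
    funext i
    rw [cfv_comp hcU, hT_apply, Pi.smul_apply, Complex.real_smul, bV_fc hV]
    have e : ∀ x, UV hc hV x k t i = (Real.exp (-(EL.mk c k * max t 0)) : ℂ) * H356R3.NS.fc (V x) k i := by
      intro x
      unfold UV
      rw [hE_apply, hT_apply, Pi.smul_apply, Complex.real_smul]
    simp only [e]
    unfold H459R3.NS.fc
    rw [← integral_const_mul]
    refine integral_congr_ae (Filter.Eventually.of_forall fun x => ?_)
    simp only
    ring

end Pool.Agent.U162.GE
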